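import Pool.Agent.SYS.CO.Bas

/-!
# SYSS-PROG: definitions (star text /team-store/syst_star_43.md, section 2).  DO NOT CHANGE.

`T` is a triangulation (only its cubic dual graph is used: faces = cycles of `T.f`, edges = pairs
`{d, T.a d}`).  A face set is a set of darts invariant under `T.f` (`Fs T Y`, `bdy`, `DC`, `nb` of XP/Defs).
A region is a pair `(Y, E)`: faces `Y`, revealed edges `E` (for `X : Part D`: `Y = X.R`, `E = rev X`).
`Lk`, `ins`, `VV`, `rk` of CO/Defs.  `t` is the set of targets.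
-/

namespace SYS.PG

open Classical SST SYS.XP SYS.CO

variable {D : Type}

/-- `(Y, E)` is a region. -/
structure Rg (T : Tri D) (Y E : Set D) : Prop where
  fs : Fs T Y
  ea : ∀ d, T.a d ∈ E ↔ d ∈ E
  ey : ∀ d ∈ E, d ∈ Y
  con : ∀ d ∈ Y, ∀ e ∈ Y, Lk T E d e
  ne : Y.Nonempty

/-- The edges with a face in `H` and the other in `Y ∪ H`. -/
def ed (T : Tri D) (Y H : Set D) : Set D :=
  {d | (d ∈ H ∧ (T.a d ∈ Y ∨ T.a d ∈ H)) ∨ (T.a d ∈ H ∧ d ∈ Y)}

/-- The faces of `H` are linked to `Y` through `ed T Y H`. -/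
def Att (T : Tri D) (Y H : Set D) : Prop := ∀ d ∈ H, ∃ b ∈ Y, Lk T (ed T Y H) d b

/-- The edges of a triple: the revealed ones, those with a face in `H` and the other in `Y ∪ H`, and `Θ`. -/
def EE (T : Tri D) (Y E H Θ : Set D) : Set D := E ∪ ed T Y H ∪ Θ

/-- The face sets and edge sets which may be added to a region. -/
structure Adc (T : Tri D) (Y E H Θ : Set D) : Prop where
  fs : Fs T H
  dis : ∀ d ∈ H, d ∉ Y
  tha : ∀ d, T.a d ∈ Θ ↔ d ∈ Θ
  thy : ∀ d ∈ Θ, d ∈ Y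
  the : ∀ d ∈ Θ, d ∉ E

/-- Admissible triples `((Y, E), H, Θ)`: attached to `Y`, of rank at least `N`, and containing the
targets. -/
structure Adm (T : Tri D) (N : ℕ) (t Y E H Θ : Set D) : Prop where
  adc : Adc T Y E H Θ
  att : Att T Y H
  rank : N ≤ rk T (EE T Y E H Θ)
  tg : ∀ x ∈ t, x ∈ Y ∨ x ∈ H

/-- `Φ(H) = per(H) + μ |H|`. -/
noncomputable def Ph (μ : ℝ) (T : Tri D) (H : Set D) : ℝ := (bdy T H).ncard + μ * (H.ncard / 3)

/-- The value of a triple (`Θ.ncard` is twice the number of edges). -/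
noncomputable def val (μ : ℝ) (T : Tri D) (H Θ : Set D) : ℝ := Ph μ T H + Θ.ncard

/-- `Ψ ≤ v`. -/
def PL (T : Tri D) (μ : ℝ) (N : ℕ) (t Y E : Set D) (v : ℝ) : Prop :=
  ∃ H Θ, Adm T N t Y E H Θ ∧ val μ T H Θ ≤ v

/-- Minimal admissible triples. -/
structure Mn (T : Tri D) (μ : ℝ) (N : ℕ) (t Y E H Θ : Set D) : Prop where
  adm : Adm T N t Y E H Θ
  min : ∀ H' Θ', Adm T N t Y E H' Θ' → val μ T H Θ ≤ val μ T H' Θ'

/-- `d` is a touching dart of the triple. -/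
def Tch (T : Tri D) (Y E H Θ : Set D) (d : D) : Prop := d ∈ Y ∧ d ∉ E ∧ (T.a d ∈ H ∨ d ∈ Θ)

/-- Number of darts of `A` whose opposite is in `C`. -/
noncomputable def cut (T : Tri D) (A C : Set D) : ℕ := {d | d ∈ A ∧ T.a d ∈ C}.ncard

/-- Faces of `H` at distance at most `s` from `H ∩ A` (paths through faces of `H`). -/
def bl (T : Tri D) (H A : Set D) : ℕ → Set D
  | 0 => H ∩ A
  | s + 1 => H ∩ nb T (bl T H A s)

/-- The ball has a small cut. -/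
def Sc (μ : ℝ) (T : Tri D) (H A : Set D) (s : ℕ) : Prop :=
  (cut T (bl T H A s) (H \ bl T H A s) : ℝ) ≤ μ / 4 * ((bl T H A s).ncard / 3)

/-- The component of the face set `H` which contains `x`. -/
def cp (T : Tri D) (H : Set D) (x : D) : Set D := {y | y ∈ H ∧ Lk T (ins T H) x y}

/-- Closure property of the set of inner faces of the block with gate `f` (`f0 = T.a f`), `Hd` = hidden
darts. -/
def IsInn (T : Tri D) (Hd : Set D) (f0 : D) (M Q A : ℕ) (I : Set D) : Prop :=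
  (∀ d, d = f0 ∨ d = T.f f0 ∨ d = T.f (T.f f0) → d ∈ I) ∧
  ∀ C ⊆ I, Fs T C → DC T C → f0 ∈ C → (bdy T C).ncard ≤ M → C.ncard ≤ 3 * A → bl T Hd C (Q - 1) ⊆ I

/-- The inner faces. -/
def Inn (T : Tri D) (Hd : Set D) (f0 : D) (M Q A : ℕ) : Set D :=
  {d | ∀ I, IsInn T Hd f0 M Q A I → d ∈ I}

/-- The numbers `M`, `Q`, `A` of a block are good (`n` = rank + number of targets). -/
structure Pm (μ : ℝ) (n M Q A : ℕ) : Prop where
  mu : 0 < μ
  mu1 : μ ≤ 1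
  m3 : 3 ≤ M
  q2 : 2 ≤ Q
  ma : 2 * (M : ℝ) ≤ μ * A
  big : 8 * (n : ℝ) * (Q + 2) < M
  ga : ∀ k : ℕ, Q < Q / 2 + k → 8 * (n : ℝ) * ((Q / 2 : ℕ) + k + 2) ≤ μ / 2 * (1 + μ / 12) ^ k
  gb : ∀ k : ℕ, (M : ℝ) + 8 * (n : ℝ) * ((Q / 2 : ℕ) + k + 2) ≤
    μ / 2 * (1 + μ / 12) ^ (k + (Q - 1 - Q / 2)) + 8 * (n : ℝ) * (Q + 2)

/-- `(Y, E)` has a triple of value at most `v`, and every minimal triple has a touching dart in `Ex`. -/
structure St (T : Tri D) (μ : ℝ) (N : ℕ) (t Y E Ex : Set D) (v : ℝ) : Prop where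
  le : PL T μ N t Y E v
  ex : ∀ H Θ, Mn T μ N t Y E H Θ → (H ∪ Θ).Nonempty → ∃ d ∈ Ex, Tch T Y E H Θ d

end SYS.PG
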