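import Pool.Agent.SYS.PG.Defs

/-!
# SYSS-PG-Gw: the numbers of a block

An exponential beats a linear function.
-/

namespace SYS.PG

private theorem gw_lin {μ : ℝ} (hμ : 0 < μ) (a b : ℝ) :
    ∃ j0 : ℕ, ∀ j : ℕ, j0 ≤ j → a * j + b ≤ μ / 2 * (1 + μ / 12) ^ j := by
  have hx : (1 : ℝ) < 1 + μ / 12 := by linarith
  have h1 := (tendsto_pow_const_div_const_pow_of_one_lt 1 hx).const_mul a
  have h0 := (tendsto_pow_const_div_const_pow_of_one_lt 0 hx).const_mul b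
  have h2 := h1.add h0
  have h3 : a * 0 + b * 0 < μ / 2 := by linarith
  obtain ⟨j0, hj0⟩ := Filter.eventually_atTop.1 (h2.eventually (gt_mem_nhds h3))
  refine ⟨j0, fun j hj => ?_⟩
  have h4 := hj0 j hj
  have hp : 0 < (1 + μ / 12) ^ j := by positivity
  have h5 : a * ((j : ℝ) ^ 1 / (1 + μ / 12) ^ j) + b * ((j : ℝ) ^ 0 / (1 + μ / 12) ^ j) =
      (a * j + b) / (1 + μ / 12) ^ j := by
    field_simp
  rw [h5, div_lt_iff₀ hp] at h4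
  exact h4.le

theorem exists_pm {μ : ℝ} (hμ : 0 < μ) (hμ1 : μ ≤ 1) (n : ℕ) (Λ : ℝ) :
    ∃ Q1 : ℕ, ∀ Q : ℕ, Q1 ≤ Q → ∀ M A : ℕ, 3 ≤ M → (M : ℝ) ≤ Λ * Q → 8 * (n : ℝ) * (Q + 2) < M → 2 * (M : ℝ) ≤ μ * A →
      Pm μ n M Q A := by
  obtain ⟨j0, hj0⟩ := gw_lin hμ (16 * n) (16 * n)
  obtain ⟨j1, hj1⟩ := gw_lin hμ (2 * |Λ| + 16 * n) (3 * |Λ| + 48 * n)
  refine ⟨2 * j0 + 2 * j1 + 4, ?_⟩
  intro Q hQ M A h3 hM hbig hMA
  have hn : (0 : ℝ) ≤ n := Nat.cast_nonneg n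
  refine ⟨hμ, hμ1, h3, by omega, hMA, hbig, ?_, ?_⟩
  · intro k hk
    have h1 := hj0 k (by omega)
    have h2 : ((Q / 2 : ℕ) : ℝ) ≤ k := by
      have : Q / 2 ≤ k := by omega
      exact_mod_cast this
    have h4 : 8 * (n : ℝ) * ((Q / 2 : ℕ) + k + 2) ≤ 8 * (n : ℝ) * (k + k + 2) :=
      mul_le_mul_of_nonneg_left (by linarith) (by linarith)
    linarith
  · intro k
    obtain ⟨j, hj⟩ : ∃ j, j = k + (Q - 1 - Q / 2) := ⟨_, rfl⟩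
    rw [← hj]
    have h1 := hj1 j (by omega)
    have h2 : (Q : ℝ) ≤ 2 * j + 3 := by
      have : Q ≤ 2 * j + 3 := by omega
      exact_mod_cast this
    have h4 : ((Q / 2 : ℕ) : ℝ) + k + 2 ≤ 2 * j + 6 := by
      have : Q / 2 + k + 2 ≤ 2 * j + 6 := by omega
      exact_mod_cast this
    have h5 : 8 * (n : ℝ) * ((Q / 2 : ℕ) + k + 2) ≤ 8 * (n : ℝ) * (2 * j + 6) :=
      mul_le_mul_of_nonneg_left h4 (by linarith)
    have hQ0 : (0 : ℝ) ≤ Q := Nat.cast_nonneg Q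
    have h6 : Λ * Q ≤ |Λ| * (2 * j + 3) :=
      (mul_le_mul_of_nonneg_right (le_abs_self Λ) hQ0).trans (mul_le_mul_of_nonneg_left h2 (abs_nonneg Λ))
    have h7 : 0 ≤ 8 * (n : ℝ) * (Q + 2) := by positivity
    linarith

end SYS.PG
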