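import Pool.Agent.SYS.PG.Defs

/-!
# SYSS-PG-Cu: perimeters and cuts (finite cardinalities; the opposite map `T.a` is a bijection)
-/

namespace SYS.PG

open Classical SST SYS.XP SYS.CO

variable {D : Type} [Finite D]

theorem per_diff (T : Tri D) {H C : Set D} (h : C ⊆ H) :
    (bdy T (H \ C)).ncard + (bdy T C).ncard = (bdy T H).ncard + 2 * cut T C (H \ C) := by
  have e1 : bdy T (H \ C) = {d | d ∈ H \ C ∧ T.a d ∉ H} ∪ {d | d ∈ H \ C ∧ T.a d ∈ C} := by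
    ext d
    constructor
    · rintro ⟨h1, h2⟩
      by_cases h3 : T.a d ∈ H
      · right
        refine ⟨h1, ?_⟩
        by_contra h4
        exact h2 ⟨h3, h4⟩
      · exact Or.inl ⟨h1, h3⟩
    · rintro (⟨h1, h2⟩ | ⟨h1, h2⟩)
      · exact ⟨h1, fun h3 => h2 h3.1⟩
      · exact ⟨h1, fun h3 => h3.2 h2⟩
  have e2 : bdy T C = {d | d ∈ C ∧ T.a d ∉ H} ∪ {d | d ∈ C ∧ T.a d ∈ H \ C} := by
    ext d
    constructor
    · rintro ⟨h1, h2⟩
      by_cases h3 : T.a d ∈ H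
      · exact Or.inr ⟨h1, h3, h2⟩
      · exact Or.inl ⟨h1, h3⟩
    · rintro (⟨h1, h2⟩ | ⟨h1, h2⟩)
      · exact ⟨h1, fun h3 => h2 (h h3)⟩
      · exact ⟨h1, h2.2⟩
  have e3 : bdy T H = {d | d ∈ H \ C ∧ T.a d ∉ H} ∪ {d | d ∈ C ∧ T.a d ∉ H} := by
    ext d
    constructor
    · rintro ⟨h1, h2⟩
      by_cases h3 : d ∈ C
      · exact Or.inr ⟨h3, h2⟩
      · exact Or.inl ⟨⟨h1, h3⟩, h2⟩
    · rintro (⟨h1, h2⟩ | ⟨h1, h2⟩)
      · exact ⟨h1.1, h2⟩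
      · exact ⟨h h1, h2⟩
  have e4 : {d | d ∈ H \ C ∧ T.a d ∈ C} = T.a '' {d | d ∈ C ∧ T.a d ∈ H \ C} := by
    ext d
    constructor
    · rintro ⟨h1, h2⟩
      refine ⟨T.a d, ⟨h2, ?_⟩, T.aa d⟩
      rw [T.aa]
      exact h1
    · rintro ⟨e, ⟨h1, h2⟩, rfl⟩
      refine ⟨h2, ?_⟩
      rw [T.aa]
      exact h1
  have e5 : ({d | d ∈ H \ C ∧ T.a d ∈ C} : Set D).ncard = cut T C (H \ C) := by
    rw [e4, Set.ncard_image_of_injective _ T.a.injective]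
    rfl
  have e6 : ({d | d ∈ C ∧ T.a d ∈ H \ C} : Set D).ncard = cut T C (H \ C) := rfl
  have d1 : Disjoint {d | d ∈ H \ C ∧ T.a d ∉ H} {d | d ∈ H \ C ∧ T.a d ∈ C} := by
    rw [Set.disjoint_left]
    rintro d ⟨_, h1⟩ ⟨_, h2⟩
    exact h1 (h h2)
  have d2 : Disjoint {d | d ∈ C ∧ T.a d ∉ H} {d | d ∈ C ∧ T.a d ∈ H \ C} := by
    rw [Set.disjoint_left]
    rintro d ⟨_, h1⟩ ⟨_, h2⟩
    exact h1 h2.1
  have d3 : Disjoint {d | d ∈ H \ C ∧ T.a d ∉ H} {d | d ∈ C ∧ T.a d ∉ H} := by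
    rw [Set.disjoint_left]
    rintro d ⟨h1, _⟩ ⟨h2, _⟩
    exact h1.2 h2
  rw [e1, e2, e3, Set.ncard_union_eq d1 (Set.toFinite _) (Set.toFinite _),
    Set.ncard_union_eq d2 (Set.toFinite _) (Set.toFinite _),
    Set.ncard_union_eq d3 (Set.toFinite _) (Set.toFinite _), e5, e6]
  ring

theorem Ph_diff {μ : ℝ} (T : Tri D) {H C : Set D} (h : C ⊆ H) :
    Ph μ T (H \ C) = Ph μ T H - (bdy T C).ncard - μ * (C.ncard / 3) + 2 * cut T C (H \ C) := by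
  have h1 := per_diff T h
  have h2 : (H \ C).ncard + C.ncard = H.ncard := Set.ncard_sdiff_add_ncard_of_subset h (Set.toFinite _)
  have h3 : ((bdy T (H \ C)).ncard : ℝ) + (bdy T C).ncard = (bdy T H).ncard + 2 * cut T C (H \ C) := by
    exact_mod_cast h1
  have h4 : ((H \ C).ncard : ℝ) + C.ncard = H.ncard := by exact_mod_cast h2
  unfold Ph
  rw [← h4]
  linear_combination h3

theorem Ph_nonneg {μ : ℝ} (hμ : 0 ≤ μ) (T : Tri D) (H : Set D) : 0 ≤ Ph μ T H := by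
  unfold Ph
  positivity

private theorem cu_mono {μ : ℝ} (hμ : 0 ≤ μ) {a b a' b' : ℕ} (h : a ≤ a') (h' : b ≤ b') :
    (a : ℝ) + μ * ((b : ℝ) / 3) ≤ a' + μ * ((b' : ℝ) / 3) := by
  have h1 : (a : ℝ) ≤ a' := by exact_mod_cast h
  have h2 : (b : ℝ) ≤ b' := by exact_mod_cast h'
  have h3 : μ * ((b : ℝ) / 3) ≤ μ * ((b' : ℝ) / 3) := mul_le_mul_of_nonneg_left (by linarith) hμ
  linarith

theorem Ph_union {μ : ℝ} (hμ : 0 ≤ μ) (T : Tri D) (H K : Set D) : Ph μ T (H ∪ K) ≤ Ph μ T H + Ph μ T K := by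
  have h1 : (bdy T (H ∪ K)).ncard ≤ (bdy T H).ncard + (bdy T K).ncard := by
    refine le_trans (Set.ncard_le_ncard (t := bdy T H ∪ bdy T K) ?_ (Set.toFinite _)) (Set.ncard_union_le _ _)
    rintro d ⟨h1 | h1, h2⟩
    · exact Or.inl ⟨h1, fun h3 => h2 (Or.inl h3)⟩
    · exact Or.inr ⟨h1, fun h3 => h2 (Or.inr h3)⟩
  have h2 : (H ∪ K).ncard ≤ H.ncard + K.ncard := Set.ncard_union_le _ _
  have h3 := cu_mono hμ h1 h2
  unfold Ph
  push_cast at h3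
  linarith

theorem Ph_bUnion {μ : ℝ} (hμ : 0 ≤ μ) (T : Tri D) {ι : Type} (I : Finset ι) (S : ι → Set D) (c : ℝ)
    (h : ∀ i ∈ I, Ph μ T (S i) ≤ c) : Ph μ T (⋃ i ∈ I, S i) ≤ I.card * c := by
  induction I using Finset.induction_on with
  | empty =>
    have h1 : (⋃ i ∈ (∅ : Finset ι), S i) = (∅ : Set D) := by simp
    have h2 : bdy T (∅ : Set D) = ∅ := by
      ext d
      exact ⟨fun h3 => h3.1, fun h3 => absurd h3 (Set.notMem_empty d)⟩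
    rw [h1]
    unfold Ph
    rw [h2, Set.ncard_empty, Finset.card_empty]
    simp
  | insert a s ha ih =>
    have h1 : (⋃ i ∈ insert a s, S i) = S a ∪ ⋃ i ∈ s, S i := Finset.set_biUnion_insert a s S
    rw [h1, Finset.card_insert_of_notMem ha]
    have h2 := Ph_union hμ T (S a) (⋃ i ∈ s, S i)
    have h3 := ih fun i hi => h i (Finset.mem_insert_of_mem hi)
    have h4 := h a (Finset.mem_insert_self a s)
    push_cast
    linarith

theorem Ph_le_card {μ : ℝ} (hμ : 0 ≤ μ) (hμ1 : μ ≤ 1) (T : Tri D) (H : Set D) : Ph μ T H ≤ 4 * (H.ncard / 3) := by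
  have h1 : (bdy T H).ncard ≤ H.ncard := Set.ncard_le_ncard (fun d hd => hd.1) (Set.toFinite _)
  have h2 : ((bdy T H).ncard : ℝ) ≤ H.ncard := by exact_mod_cast h1
  have h3 : μ * ((H.ncard : ℝ) / 3) ≤ 1 * ((H.ncard : ℝ) / 3) := mul_le_mul_of_nonneg_right hμ1 (by positivity)
  unfold Ph
  linarith

/-- A union of parts of `H` without edges to the rest of `H` has a smaller value. -/
theorem Ph_part {μ : ℝ} (hμ : 0 ≤ μ) (T : Tri D) {H K : Set D} (h : K ⊆ H) (h' : ∀ d ∈ K, T.a d ∈ H → T.a d ∈ K) :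
    Ph μ T K ≤ Ph μ T H := by
  exact cu_mono hμ (Set.ncard_le_ncard (fun d hd => ⟨h hd.1, fun h1 => hd.2 (h' d hd.1 h1)⟩) (Set.toFinite _))
    (Set.ncard_le_ncard h (Set.toFinite _))

theorem cut_zero (T : Tri D) {H K : Set D} (h' : ∀ d ∈ K, T.a d ∈ H → T.a d ∈ K) : cut T K (H \ K) = 0 := by
  unfold cut
  rw [Set.ncard_eq_zero (Set.toFinite _), Set.eq_empty_iff_forall_notMem]
  rintro d ⟨h1, h2, h3⟩
  exact h3 (h' d h1 h2)

theorem face_card (T : Tri D) (d : D) : ({d, T.f d, T.f (T.f d)} : Set D).ncard = 3 := by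
  rw [Set.ncard_eq_three]
  refine ⟨d, T.f d, T.f (T.f d), (T.fne d).symm, fun h1 => ?_, (T.fne _).symm, rfl⟩
  have h2 := T.fff d
  rw [← h1] at h2
  exact T.fne d h2

theorem fs_card_pos (T : Tri D) {H : Set D} (h : Fs T H) (hne : H.Nonempty) : 3 ≤ H.ncard := by
  obtain ⟨d, hd⟩ := hne
  rw [← face_card T d]
  refine Set.ncard_le_ncard ?_ (Set.toFinite _)
  rintro e (rfl | rfl | rfl)
  · exact hd
  · exact (h d).2 hd
  · exact (h _).2 ((h d).2 hd)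

end SYS.PG
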