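import Pool.Agent.SYS.PG.At
import Pool.Agent.SYS.PG.Cu

/-!
# SYSS-PG-Mi: minimal triples

PLAN.
* `exists_mn`: `Set D × Set D` is finite; minimize `val` over the admissible pairs (`Set.exists_min_image` on a finite set).
* `adm_zero`: `ed T Y ∅ = ∅`, `EE T Y E ∅ ∅ = E`.
* `tch`: `Θ` nonempty: its elements are touching.  `H` nonempty: `att_iff` with `Z = H` gives `d ∈ H` with `T.a d ∈ Y` (or the
  impossible second case); the dart `T.a d ∈ Y` is touching: not in `E` because otherwise `d ∈ E ⊆ Y`, `Adc.dis`.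
* `val_pos`: `Θ.ncard > 0` or `μ H.ncard > 0`.
-/

namespace SYS.PG

open Classical SST SYS.XP SYS.CO

variable {D : Type}

theorem exists_mn [Finite D] {T : Tri D} {μ : ℝ} {N : ℕ} {t Y E : Set D} {v : ℝ} (h : PL T μ N t Y E v) :
    ∃ H Θ, Mn T μ N t Y E H Θ ∧ val μ T H Θ ≤ v := by
  obtain ⟨H0, Θ0, hA, hv⟩ := h
  obtain ⟨p, hp, hmin⟩ := Set.exists_min_image {p : Set D × Set D | Adm T N t Y E p.1 p.2}
    (fun p => val μ T p.1 p.2) (Set.toFinite _) ⟨(H0, Θ0), hA⟩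
  exact ⟨p.1, p.2, ⟨hp, fun H' Θ' h' => hmin (H', Θ') h'⟩, (hmin (H0, Θ0) hA).trans hv⟩

private theorem mi_ee (T : Tri D) (Y E : Set D) : EE T Y E ∅ ∅ = E := by
  ext d
  constructor
  · rintro ((h | h) | h)
    · exact h
    · rcases h with ⟨h, -⟩ | ⟨h, -⟩
      · exact absurd h (Set.notMem_empty _)
      · exact absurd h (Set.notMem_empty _)
    · exact absurd h (Set.notMem_empty _)
  · exact fun h => Or.inl (Or.inl h)

theorem adm_zero {T : Tri D} {N : ℕ} {t Y E : Set D} :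
    Adm T N t Y E ∅ ∅ ↔ N ≤ rk T E ∧ ∀ x ∈ t, x ∈ Y := by
  constructor
  · intro h
    refine ⟨?_, fun x hx => (h.tg x hx).resolve_right (Set.notMem_empty _)⟩
    have h1 := h.rank
    rw [mi_ee] at h1
    exact h1
  · rintro ⟨h1, h2⟩
    refine ⟨⟨fun _ => Iff.rfl, fun _ hd => absurd hd (Set.notMem_empty _), fun _ => Iff.rfl,
      fun _ hd => absurd hd (Set.notMem_empty _), fun _ hd => absurd hd (Set.notMem_empty _)⟩,
      att_empty T Y, ?_, fun x hx => Or.inl (h2 x hx)⟩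
    rw [mi_ee]
    exact h1

theorem tch {T : Tri D} {N : ℕ} {t Y E H Θ : Set D} (hR : Rg T Y E) (hA : Adm T N t Y E H Θ)
    (hne : (H ∪ Θ).Nonempty) : ∃ d, Tch T Y E H Θ d := by
  obtain ⟨d, hd | hd⟩ := hne
  · obtain ⟨e, he, h1 | h1⟩ := (att_iff hA.adc.fs hA.adc.dis).1 hA.att H Set.Subset.rfl ⟨d, hd⟩
      (fun d hd => (hA.adc.fs d).2 hd)
    · refine ⟨T.a e, h1, fun h2 => ?_, Or.inl ?_⟩
      · exact hA.adc.dis e he (hR.ey e ((hR.ea e).1 h2))
      · rw [T.aa]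
        exact he
    · exact absurd h1.1 h1.2
  · exact ⟨d, hA.adc.thy d hd, hA.adc.the d hd, Or.inr hd⟩

theorem val_nonneg [Finite D] {T : Tri D} {μ : ℝ} (hμ : 0 ≤ μ) (H Θ : Set D) : 0 ≤ val μ T H Θ := by
  exact add_nonneg (Ph_nonneg hμ T H) (Nat.cast_nonneg _)

end SYS.PG
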