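import Pool.Agent.SYS.PG.At
import Pool.Agent.SYS.CO.Un

/-!
# SYSS-PG-Nx: triples of the larger region which touch only the smaller one (2.3)
-/

namespace SYS.PG

open Classical SST SYS.XP SYS.CO

variable {D : Type}

theorem nextgate [Finite D] {T : Tri D} {Y E Y' E' H Θ t : Set D} (hR : Rg T Y E) (hR' : Rg T Y' E') (hY : Y ⊆ Y')
    (hE : E ⊆ E') (hV : VV T E' ≤ VV T E) {N : ℕ} (ht : ∀ x ∈ t, x ∈ Y' → x ∈ Y)
    (hA : Adm T N t Y' E' H Θ) (hT : ∀ d, Tch T Y' E' H Θ d → d ∈ Y) : Adm T N t Y E H Θ := by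
  have a0 := hA.adc
  have h1 : ∀ d ∈ Θ, d ∈ Y := fun d hd => hT d ⟨a0.thy d hd, a0.the d hd, Or.inr hd⟩
  have h2 : ∀ d ∈ Y', T.a d ∈ H → d ∈ Y := fun d hd hH =>
    hT d ⟨hd, fun he => a0.dis _ hH (hR'.ey _ ((hR'.ea d).2 he)), Or.inl hH⟩
  have h3 : ed T Y' H = ed T Y H := by
    apply Set.Subset.antisymm
    · rintro d (⟨h4, h5 | h5⟩ | ⟨h4, h5⟩)
      · refine Or.inl ⟨h4, Or.inl (h2 _ h5 ?_)⟩
        rw [T.aa]
        exact h4
      · exact Or.inl ⟨h4, Or.inr h5⟩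
      · exact Or.inr ⟨h4, h2 _ h5 h4⟩
    · rintro d (⟨h4, h5 | h5⟩ | ⟨h4, h5⟩)
      · exact Or.inl ⟨h4, Or.inl (hY h5)⟩
      · exact Or.inl ⟨h4, Or.inr h5⟩
      · exact Or.inr ⟨h4, hY h5⟩
  have adc : Adc T Y E H Θ := ⟨a0.fs, fun d hd hy => a0.dis d hd (hY hy), a0.tha, h1,
    fun d hd he => a0.the d hd (hE he)⟩
  have hfs : Fs T (Y ∪ H) := fun d => or_congr (hR.fs d) (a0.fs d)
  refine ⟨adc, fun d hd => ?_, ?_, fun x hx => ?_⟩
  · obtain ⟨b, hb, hl⟩ := hA.att d hd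
    rw [h3] at hl
    have h4 := lk_mem (Y := Y ∪ H) (fun d hd => (hfs d).2 hd) (fun d hd => (ed_a T Y H d).2 hd)
      (fun d _ hde => (ed_sub T Y H hde).2) hl
    rcases h4.1 (Or.inr hd) with h5 | h5
    · exact ⟨b, h5, hl⟩
    · exact absurd hb (a0.dis b h5)
  · have h4 : VV T (EE T Y E H Θ ∪ E') = VV T (EE T Y E H Θ) := by
      refine VV_add (Y1 := Y ∪ H) (Y2 := Y') (ee_a hR adc) hR'.ea hfs hR'.fs
        (fun d hd => (ee_sub hR adc hd).1) hR'.ey ?_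
        (hV.trans (VV_mono fun d hd => Or.inl (Or.inl hd)))
      have h5 : ∀ d ∈ (Y ∪ H) ∩ Y', d ∈ Y := by
        rintro d ⟨h6 | h6, h7⟩
        · exact h6
        · exact absurd h7 (a0.dis d h6)
      have h6 : E ⊆ EE T Y E H Θ ∩ E' := fun c hc => ⟨Or.inl (Or.inl hc), hE hc⟩
      exact fun d hd e he => lk_mono h6 (hR.con d (h5 d hd) e (h5 e he))
    have h5 : EE T Y' E' H Θ ⊆ EE T Y E H Θ ∪ E' := by
      rintro d ((h6 | h6) | h6)
      · exact Or.inr h6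
      · rw [h3] at h6
        exact Or.inl (Or.inl (Or.inr h6))
      · exact Or.inl (Or.inr h6)
    have h6 := hA.rank.trans (rk_mono h5)
    unfold rk at h6 ⊢
    rw [h4] at h6
    exact h6
  · exact (hA.tg x hx).imp (ht x hx) id

end SYS.PG
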