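import Pool.Agent.SYS.PG.Pr
import Pool.Agent.SYS.PG.Nx
import Pool.Agent.SYS.PG.Mi
import Pool.Agent.SYS.PG.Gw

/-!
# SYSS-PG-Main: the chain step (2.5)

`St T μ N t Y E Ex v`: the region `(Y, E)` has `Ψ ≤ v`, and every minimal triple has a touching dart in `Ex`.
* `start`: a face set `H` with `Y ∪ H` connected of rank at least `N` which contains the targets.
* `step`: if the goal is not reached there is a gate `f` in `Ex` such that: if `T.a f` is revealed, no planar end of a block at `f` is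
  possible; otherwise every planar end of the block at `f` contains a new target or has `Ψ ≤ v - (M - 8 n (Q + 2))` and the next gate is an
  exit.
* `special`: after a special event (any larger region) `Ψ ≤ v + 8 n (Q + 2)` and the next gate is arbitrary.
-/

namespace SYS.PG

open Classical SST SYS.XP SYS.CO

variable {D : Type}

/-- Initial state. -/
theorem start [Finite D] {T : Tri D} {Y E H t : Set D} (hR : Rg T Y E) (hH : Fs T H) (hdc : DC T (Y ∪ H))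
    {N τ : ℕ} (hN : N ≤ rk T (ins T (Y ∪ H))) (ht : ∀ x ∈ t, x ∈ Y ∨ x ∈ H) (htc : t.ncard ≤ τ) {μ : ℝ}
    {M Q A : ℕ} (hp : Pm μ (N + τ) M Q A) :
    St T μ N t Y E Set.univ (Ph μ T H + 8 * ((N + τ : ℕ) : ℝ) * (Q + 2)) := by
  refine ⟨reatt hR hH hdc hN ht htc hp, fun H Θ hM hne => ?_⟩
  obtain ⟨d, hd⟩ := tch hR hM.adm hne
  exact ⟨d, trivial, hd⟩

/-- After a special event. -/
theorem special [Finite D] {T : Tri D} {Y E Y' E' Ex t : Set D} (hR : Rg T Y E) (hR' : Rg T Y' E') (hY : Y ⊆ Y')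
    {N τ : ℕ} (htc : t.ncard ≤ τ) {μ v : ℝ} {M Q A : ℕ} (hp : Pm μ (N + τ) M Q A) (hS : St T μ N t Y E Ex v) :
    St T μ N t Y' E' Set.univ (v + 8 * ((N + τ : ℕ) : ℝ) * (Q + 2)) := by
  obtain ⟨H, Θ, hA, hv⟩ := hS.le
  obtain ⟨H', Θ', hA', hv'⟩ := reattC hR hR' hY htc hp hA
  refine ⟨⟨H', Θ', hA', by linarith⟩, fun H Θ hM hne => ?_⟩
  obtain ⟨d, hd⟩ := tch hR' hM.adm hne
  exact ⟨d, trivial, hd⟩

/-- One block. -/
theorem step [Finite D] {T : Tri D} {Y E Ex t : Set D} (hR : Rg T Y E) {N τ : ℕ} (htc : t.ncard ≤ τ) {μ v : ℝ}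
    (hS : St T μ N t Y E Ex v) (hg : ¬ (N ≤ rk T E ∧ ∀ x ∈ t, x ∈ Y)) :
    ∃ f ∈ Ex, f ∈ Y ∧ f ∉ E ∧ ∀ {M Q A : ℕ}, Pm μ (N + τ) M Q A → ∀ Y' E' : Set D, Rg T Y' E' → Y ⊆ Y' → E ⊆ E' →
      VV T E' ≤ VV T E → f ∈ E' → (T.a f ∉ Y → Inn T Yᶜ (T.a f) M Q A ⊆ E') →
      T.a f ∉ Y ∧ ((∃ x ∈ t, x ∉ Y ∧ x ∈ Y') ∨
        St T μ N t Y' E' {d | d ∈ Y' ∧ d ∉ E' ∧ d ∉ Y} (v - (M - 8 * ((N + τ : ℕ) : ℝ) * (Q + 2)))) := by
  obtain ⟨H, Θ, hM, hv⟩ := exists_mn hS.le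
  have hne : (H ∪ Θ).Nonempty := by
    by_contra hn
    rw [Set.not_nonempty_iff_eq_empty] at hn
    have h1 : H = ∅ := by
      rw [Set.union_empty_iff] at hn
      exact hn.1
    have h2 : Θ = ∅ := by
      rw [Set.union_empty_iff] at hn
      exact hn.2
    rw [h1, h2] at hM
    exact hg (adm_zero.1 hM.adm)
  obtain ⟨f, hfx, hfY, hfE, hft⟩ := hS.ex H Θ hM hne
  refine ⟨f, hfx, hfY, hfE, ?_⟩
  intro M Q A hp Y' E' hR' hY hE hV hfE' hI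
  have hnT : f ∉ Θ := fun h => theta hR hM hR'.ea hE hV h hfE'
  have hfH : T.a f ∈ H := hft.resolve_right hnT
  have hfn : T.a f ∉ Y := hM.adm.adc.dis _ hfH
  refine ⟨hfn, ?_⟩
  by_cases hnt : ∃ x ∈ t, x ∉ Y ∧ x ∈ Y'
  · exact Or.inl hnt
  refine Or.inr ?_
  rcases progress hR hR' hY hE hV htc hp hM hfH (hI hfn) with h | h
  · exact absurd h hnt
  obtain ⟨H1, Θ1, hA1, hv1⟩ := h
  have hb := hp.big
  refine ⟨⟨H1, Θ1, hA1, by linarith⟩, ?_⟩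
  intro H2 Θ2 hM2 hne2
  by_contra hcon
  have hall : ∀ d, Tch T Y' E' H2 Θ2 d → d ∈ Y := by
    intro d hd
    by_contra hdY
    exact hcon ⟨d, ⟨hd.1, hd.2.1, hdY⟩, hd⟩
  have hA3 := nextgate hR hR' hY hE hV (fun x hx hx' => by
    by_contra hxY
    exact hnt ⟨x, hx, hxY, hx'⟩) hM2.adm hall
  have h3 := hM.min _ _ hA3
  have h4 := hM2.min _ _ hA1
  linarith

end SYS.PG
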