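import Pool.Agent.SYS.PG.Defs

/-!
# SYSS-PG-At: face sets attached to a face set

PLAN.  `lk_mem` of CO/Bas is the main tool (a set of faces which is closed under `T.f` and the edges is invariant under `Lk`).
* `att_iff`: `→`: if a nonempty `Z ⊆ H` closed under `T.f` has no edge as claimed, then `Z` is closed under the edges of `ed T Y H`
  (a dart `d ∈ Z` in `ed T Y H` has `T.a d ∈ Y` or `T.a d ∈ H`), so by `lk_mem` the dart `b ∈ Y` is in `Z ⊆ H`: contradiction to `hd`.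
  `←`: for `d ∈ H` take `Z = {e ∈ H | Lk T (ed T Y H) d e}` (nonempty, closed under `T.f`); the edge of the criterion links `d` to `Y`
  or to an element of `H \ Z` which is linked: contradiction.
* `att_of_dc`: criterion; `Z ⊆ H \ Y` closed under `T.f` and (if it fails) under the edges inside `Y ∪ H`, so `Z = Y ∪ H` contains `Y`.
* `dc_of_att`: `dc_lk`: all faces of `Y` are linked by `con` and `ins`, all faces of `H` are linked to a face of `Y`.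
* `att_lk`: from `Att` and `con`: `Lk T (E ∪ ed T Y H) d b` for all `b ∈ Y`.
-/

namespace SYS.PG

open Classical SST SYS.XP SYS.CO

variable {D : Type}

theorem ed_a (T : Tri D) (Y H : Set D) (d : D) : T.a d ∈ ed T Y H ↔ d ∈ ed T Y H := by
  show ((T.a d ∈ H ∧ (T.a (T.a d) ∈ Y ∨ T.a (T.a d) ∈ H)) ∨ (T.a (T.a d) ∈ H ∧ T.a d ∈ Y)) ↔
    ((d ∈ H ∧ (T.a d ∈ Y ∨ T.a d ∈ H)) ∨ (T.a d ∈ H ∧ d ∈ Y))
  rw [T.aa]
  tauto

theorem ed_mono (T : Tri D) (Y : Set D) {H H' : Set D} (h : H ⊆ H') : ed T Y H ⊆ ed T Y H' := by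
  rintro d (⟨h1, h2 | h2⟩ | ⟨h1, h2⟩)
  · exact Or.inl ⟨h h1, Or.inl h2⟩
  · exact Or.inl ⟨h h1, Or.inr (h h2)⟩
  · exact Or.inr ⟨h h1, h2⟩

theorem ed_sub (T : Tri D) (Y H : Set D) : ed T Y H ⊆ ins T (Y ∪ H) := by
  rintro d (⟨h1, h2 | h2⟩ | ⟨h1, h2⟩)
  · exact ⟨Or.inr h1, Or.inl h2⟩
  · exact ⟨Or.inr h1, Or.inr h2⟩
  · exact ⟨Or.inl h2, Or.inr h1⟩

theorem ins_union (T : Tri D) (Y H : Set D) : ins T (Y ∪ H) = ins T Y ∪ ed T Y H := by
  ext d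
  constructor
  · rintro ⟨h1 | h1, h2 | h2⟩
    · exact Or.inl ⟨h1, h2⟩
    · exact Or.inr (Or.inr ⟨h2, h1⟩)
    · exact Or.inr (Or.inl ⟨h1, Or.inl h2⟩)
    · exact Or.inr (Or.inl ⟨h1, Or.inr h2⟩)
  · rintro (h | h)
    · exact ⟨Or.inl h.1, Or.inl h.2⟩
    · exact ed_sub T Y H h

theorem ee_a {T : Tri D} {Y E H Θ : Set D} (hR : Rg T Y E) (hA : Adc T Y E H Θ) (d : D) :
    T.a d ∈ EE T Y E H Θ ↔ d ∈ EE T Y E H Θ :=
  or_congr (or_congr (hR.ea d) (ed_a T Y H d)) (hA.tha d)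

/-- all edges of a triple are inside `Y ∪ H` -/
theorem ee_sub {T : Tri D} {Y E H Θ : Set D} (hR : Rg T Y E) (hA : Adc T Y E H Θ) :
    EE T Y E H Θ ⊆ ins T (Y ∪ H) := by
  rintro d ((h | h) | h)
  · exact ⟨Or.inl (hR.ey d h), Or.inl (hR.ey _ ((hR.ea d).2 h))⟩
  · exact ed_sub T Y H h
  · exact ⟨Or.inl (hA.thy d h), Or.inl (hA.thy _ ((hA.tha d).2 h))⟩

theorem att_empty (T : Tri D) (Y : Set D) : Att T Y ∅ := fun _ hd => absurd hd (Set.notMem_empty _)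

theorem att_iUnion {T : Tri D} {Y : Set D} {ι : Type} (I : Set ι) (G : ι → Set D) (h : ∀ i ∈ I, Att T Y (G i)) :
    Att T Y (⋃ i ∈ I, G i) := by
  intro d hd
  rw [Set.mem_iUnion₂] at hd
  obtain ⟨i, hi, hd⟩ := hd
  obtain ⟨b, hb, h1⟩ := h i hi d hd
  exact ⟨b, hb, lk_mono (ed_mono T Y (Set.subset_biUnion_of_mem (u := G) hi)) h1⟩

theorem att_union {T : Tri D} {Y G G' : Set D} (h : Att T Y G) (h' : Att T Y G') : Att T Y (G ∪ G') := by
  rintro d (hd | hd)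
  · obtain ⟨b, hb, h1⟩ := h d hd
    exact ⟨b, hb, lk_mono (ed_mono T Y Set.subset_union_left) h1⟩
  · obtain ⟨b, hb, h1⟩ := h' d hd
    exact ⟨b, hb, lk_mono (ed_mono T Y Set.subset_union_right) h1⟩

theorem att_iff {T : Tri D} {Y H : Set D} (hH : Fs T H) (hd : ∀ d ∈ H, d ∉ Y) :
    Att T Y H ↔ ∀ Z ⊆ H, Z.Nonempty → (∀ d ∈ Z, T.f d ∈ Z) → ∃ d ∈ Z, T.a d ∈ Y ∨ (T.a d ∈ H ∧ T.a d ∉ Z) := by
  constructor
  · intro h Z hZ hne hf
    by_contra hcon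
    push Not at hcon
    obtain ⟨z, hz⟩ := hne
    obtain ⟨b, hb, h1⟩ := h z (hZ hz)
    have h2 := lk_mem (Y := Z) hf (fun d hd => (ed_a T Y H d).2 hd) (fun d hdZ hde => ?_) h1
    · exact hd b (hZ (h2.1 hz)) hb
    · obtain ⟨h3, h4⟩ := hcon d hdZ
      rcases hde with ⟨h5, h6 | h6⟩ | ⟨h5, h6⟩
      · exact absurd h6 h3
      · exact h4 h6
      · exact h4 h5
  · intro h d hdH
    obtain ⟨e, he, h1⟩ := h {e | e ∈ H ∧ Lk T (ed T Y H) d e} (fun e he => he.1) ⟨d, hdH, lk_refl T _ d⟩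
      (fun e he => ⟨(hH e).2 he.1, lk_trans he.2 (lk_f T _ e)⟩)
    rcases h1 with h1 | ⟨h1, h2⟩
    · exact ⟨T.a e, h1, lk_trans he.2 (lk_a T (Or.inl ⟨he.1, Or.inl h1⟩))⟩
    · exact absurd ⟨h1, lk_trans he.2 (lk_a T (Or.inl ⟨he.1, Or.inr h1⟩))⟩ h2

theorem att_of_dc {T : Tri D} {Y H : Set D} (hY : Fs T Y) (hH : Fs T H) (hne : Y.Nonempty) (h : DC T (Y ∪ H)) :
    Att T Y (H \ Y) := by
  have hfs : Fs T (H \ Y) := fun d => and_congr (hH d) (not_congr (hY d))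
  rw [att_iff hfs (fun d hd => hd.2)]
  intro Z hZ hneZ hf
  by_contra hcon
  push Not at hcon
  have h1 := h Z (fun d hd => Or.inr (hZ hd).1) hneZ hf fun d hdZ hd2 => by
    obtain ⟨h3, h4⟩ := hcon d hdZ
    rcases hd2 with h5 | h5
    · exact absurd h5 h3
    · exact h4 ⟨h5, h3⟩
  obtain ⟨y, hy⟩ := hne
  have h2 : y ∈ Z := by
    rw [h1]
    exact Or.inl hy
  exact (hZ h2).2 hy

theorem att_lk {T : Tri D} {Y E H : Set D} (hR : Rg T Y E) (h : Att T Y H) {d b : D} (hd : d ∈ Y ∪ H) (hb : b ∈ Y) :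
    Lk T (E ∪ ed T Y H) d b := by
  rcases hd with hd | hd
  · exact lk_mono Set.subset_union_left (hR.con d hd b hb)
  · obtain ⟨c, hc, h1⟩ := h d hd
    exact lk_trans (lk_mono Set.subset_union_right h1) (lk_mono Set.subset_union_left (hR.con c hc b hb))

theorem dc_of_att {T : Tri D} {Y E H : Set D} (hR : Rg T Y E) (hH : Fs T H) (h : Att T Y H) : DC T (Y ∪ H) := by
  have hfs : Fs T (Y ∪ H) := fun d => or_congr (hR.fs d) (hH d)
  have hE : E ∪ ed T Y H ⊆ ins T (Y ∪ H) := by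
    rintro d (h1 | h1)
    · exact ⟨Or.inl (hR.ey d h1), Or.inl (hR.ey _ ((hR.ea d).2 h1))⟩
    · exact ed_sub T Y H h1
  rw [dc_lk hfs]
  intro d hd e he
  obtain ⟨b, hb⟩ := hR.ne
  exact lk_mono hE (lk_trans (att_lk hR h hd hb) (lk_symm (att_lk hR h he hb)))

/-- A larger region: `Y' ∪ H` is connected. -/
theorem dc_bigger {T : Tri D} {Y E Y' E' H : Set D} (hR : Rg T Y E) (hR' : Rg T Y' E') (hYY : Y ⊆ Y')
    (hH : Fs T H) (h : Att T Y H) : DC T (Y' ∪ H) := by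
  have hfs : Fs T (Y' ∪ H) := fun d => or_congr (hR'.fs d) (hH d)
  have hE : E' ⊆ ins T (Y' ∪ H) := fun d h1 => ⟨Or.inl (hR'.ey d h1), Or.inl (hR'.ey _ ((hR'.ea d).2 h1))⟩
  have hE2 : ed T Y H ⊆ ins T (Y' ∪ H) :=
    fun d h1 => ins_mono T (Set.union_subset_union_left H hYY) (ed_sub T Y H h1)
  obtain ⟨b, hb⟩ := hR'.ne
  have key : ∀ d ∈ Y' ∪ H, Lk T (ins T (Y' ∪ H)) d b := by
    rintro d (hd | hd)
    · exact lk_mono hE (hR'.con d hd b hb)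
    · obtain ⟨c, hc, h1⟩ := h d hd
      exact lk_trans (lk_mono hE2 h1) (lk_mono hE (hR'.con c (hYY hc) b hb))
  rw [dc_lk hfs]
  exact fun d hd e he => lk_trans (key d hd) (lk_symm (key e he))

end SYS.PG
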