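import Pool.Agent.SYS.PG.Defs
import Pool.Agent.SYS.XP.Nb

/-!
# SYSS-PG-Bl: balls in a face set, growth

PLAN.  `nb T` is monotone and contains the identity (`XP.sub_nb`); `nb_fs`, `nb_dc` of XP/Nb may be imported.
* `bl_grow`: for `d ∈ bl s`, `T.a d ∈ H \ bl s` the dart `T.a d` is in `bl (s + 1) \ bl s` (`T.a (T.a d) = d`), `T.a` injective.
* `bl_dc`: if `C ⊆ H` is a face set with `DC T C` then `bl T H C s` is connected.  Induction; a nonempty subset of
  `bl (s + 1)` closed under `T.f` and the edges inside `bl (s + 1)`: every face of `bl (s + 1)` is a face of `bl s` or has an edge to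
  one, so it meets `bl s`, hence contains it, hence everything (compare `XP.nb_dc`).
* `bl_ne`: `bl T H C 1 ≠ C`: by `DC T H` the set `C` has an edge to `H \ C`.
* `stop`: the sequence `(bl s).ncard` is bounded by `Nat.card D`, and it grows at least by the factor `1 + μ / 12 > 1` as long as the
  condition fails and it is not `0`; if `bl s0 = ∅` the condition holds at `s0` (`cut = 0`).  Take the least `s ≥ s0` with the condition
  (`Nat.find`), the inequality is `grow` (induction from `s0`).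
-/

namespace SYS.PG

open Classical SST SYS.XP SYS.CO

variable {D : Type}

theorem bl_sub (T : Tri D) (H A : Set D) (s : ℕ) : bl T H A s ⊆ H := by
  cases s with
  | zero => exact fun d hd => hd.1
  | succ s => exact fun d hd => hd.1

private theorem bl_step (T : Tri D) (H A : Set D) (s : ℕ) : bl T H A s ⊆ bl T H A (s + 1) :=
  fun _ hd => ⟨bl_sub T H A s hd, Or.inl hd⟩

theorem bl_mono (T : Tri D) (H A : Set D) {s s' : ℕ} (h : s ≤ s') : bl T H A s ⊆ bl T H A s' := by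
  induction s', h using Nat.le_induction with
  | base => exact fun _ hd => hd
  | succ n _ ih => exact fun _ hd => bl_step T H A n (ih hd)

private theorem nb_mono (T : Tri D) {Y Y' : Set D} (h : Y ⊆ Y') : nb T Y ⊆ nb T Y' := by
  rintro d (hd | hd | hd | hd)
  · exact Or.inl (h hd)
  · exact Or.inr (Or.inl (h hd))
  · exact Or.inr (Or.inr (Or.inl (h hd)))
  · exact Or.inr (Or.inr (Or.inr (h hd)))

theorem bl_mono' (T : Tri D) {H H' A A' : Set D} (hH : H ⊆ H') (hA : A ⊆ A') (s : ℕ) :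
    bl T H A s ⊆ bl T H' A' s := by
  induction s with
  | zero => exact fun d hd => ⟨hH hd.1, hA hd.2⟩
  | succ s ih => exact fun d hd => ⟨hH hd.1, nb_mono T ih hd.2⟩

theorem bl_fs {T : Tri D} {H A : Set D} (hH : Fs T H) (hA : Fs T A) (s : ℕ) : Fs T (bl T H A s) := by
  induction s with
  | zero => exact fun d => and_congr (hH d) (hA d)
  | succ s ih => exact fun d => and_congr (hH d) (nb_fs ih d)

private theorem bl_aux {T : Tri D} {H B : Set D} (hH : Fs T H) (hB : Fs T B) (hBH : B ⊆ H) (h' : DC T B) :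
    DC T (H ∩ nb T B) := by
  intro A hA hne hf ha
  have hf1 : ∀ d, T.f d ∈ A → d ∈ A := by
    intro d hd
    have := hf _ (hf _ hd)
    rwa [T.fff] at this
  have hdart : ∀ e ∈ H ∩ nb T B, e ∉ B → ∃ d, T.a d ∈ B ∧ (e ∈ A ↔ d ∈ A) ∧ d ∈ H ∩ nb T B := by
    rintro e ⟨heH, he⟩ heY
    rcases he with h1 | h1 | h1 | h1
    · exact absurd h1 heY
    · exact ⟨e, h1, Iff.rfl, heH, Or.inr (Or.inl h1)⟩
    · exact ⟨T.f e, h1, ⟨fun h2 => hf _ h2, fun h2 => hf1 _ h2⟩, (hH e).2 heH, Or.inr (Or.inl h1)⟩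
    · exact ⟨T.f (T.f e), h1, ⟨fun h2 => hf _ (hf _ h2), fun h2 => hf1 _ (hf1 _ h2)⟩,
        (hH _).2 ((hH e).2 heH), Or.inr (Or.inl h1)⟩
  have hAY : (A ∩ B).Nonempty := by
    obtain ⟨e, he⟩ := hne
    by_cases heY : e ∈ B
    · exact ⟨e, he, heY⟩
    · obtain ⟨d, h1, h2, -⟩ := hdart e (hA he) heY
      exact ⟨T.a d, ha d (h2.1 he) ⟨hBH h1, Or.inl h1⟩, h1⟩
  have hYA : B ⊆ A := by
    have h1 := h' (A ∩ B) (fun d hd => hd.2) hAY (fun d hd => ⟨hf d hd.1, (hB d).2 hd.2⟩)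
      (fun d hd hd2 => ⟨ha d hd.1 ⟨hBH hd2, Or.inl hd2⟩, hd2⟩)
    intro d hd
    rw [← h1] at hd
    exact hd.1
  refine Set.Subset.antisymm hA ?_
  intro e he
  by_cases heY : e ∈ B
  · exact hYA heY
  · obtain ⟨d, h1, h2, h3⟩ := hdart e he heY
    refine h2.2 ?_
    have h4 := ha (T.a d) (hYA h1) (by rw [T.aa]; exact h3)
    rwa [T.aa] at h4

theorem bl_dc {T : Tri D} {H C : Set D} (hH : Fs T H) (hC : Fs T C) (hCH : C ⊆ H) (hd : DC T C) (hne : C.Nonempty)
    (s : ℕ) : DC T (bl T H C s) := by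
  induction s with
  | zero =>
    show DC T (H ∩ C)
    rw [Set.inter_eq_right.2 hCH]
    exact hd
  | succ s ih => exact bl_aux hH (bl_fs hH hC s) (bl_sub T H C s) ih

/-- A face set which is not everything in a connected one grows. -/
theorem bl_ne {T : Tri D} {H C : Set D} (hH : Fs T H) (hC : Fs T C) (hCH : C ⊆ H) (hd : DC T H) (hne : C.Nonempty)
    (hlt : C ≠ H) {s : ℕ} (hs : 1 ≤ s) : bl T H C s ≠ C := by
  intro h
  refine hlt (hd C hCH hne (fun d hd => (hC d).2 hd) fun d hd1 hd2 => ?_)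
  have h1 : T.a d ∈ bl T H C 1 := by
    refine ⟨hd2, Or.inr (Or.inl ?_)⟩
    rw [T.aa]
    exact ⟨hCH hd1, hd1⟩
  rw [← h]
  exact bl_mono T H C hs h1

theorem bl_grow [Finite D] (T : Tri D) (H A : Set D) (s : ℕ) :
    (bl T H A s).ncard + cut T (bl T H A s) (H \ bl T H A s) ≤ (bl T H A (s + 1)).ncard := by
  have h1 : (T.a '' {d | d ∈ bl T H A s ∧ T.a d ∈ H \ bl T H A s}).ncard = cut T (bl T H A s) (H \ bl T H A s) :=
    Set.ncard_image_of_injective _ T.a.injective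
  rw [← h1, ← Set.ncard_union_eq ?_ (Set.toFinite _) (Set.toFinite _)]
  · refine Set.ncard_le_ncard ?_ (Set.toFinite _)
    rintro d (hd | ⟨e, he, rfl⟩)
    · exact bl_step T H A s hd
    · refine ⟨he.2.1, Or.inr (Or.inl ?_)⟩
      rw [T.aa]
      exact he.1
  · rw [Set.disjoint_left]
    rintro d hd ⟨e, he, rfl⟩
    exact he.2.2 hd

/-- Growth of balls with large cuts. -/
theorem grow [Finite D] {μ : ℝ} (hμ : 0 < μ) (T : Tri D) (H A : Set D) (s0 k : ℕ)
    (h : ∀ s, s0 ≤ s → s < s0 + k → ¬ Sc μ T H A s) :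
    (1 + μ / 12) ^ k * ((bl T H A s0).ncard : ℝ) ≤ (bl T H A (s0 + k)).ncard := by
  induction k with
  | zero => rw [pow_zero, one_mul, add_zero]
  | succ k ih =>
    have h1 := ih fun s h2 h3 => h s h2 (by omega)
    have h2 : μ / 4 * (((bl T H A (s0 + k)).ncard : ℝ) / 3) <
        (cut T (bl T H A (s0 + k)) (H \ bl T H A (s0 + k)) : ℝ) := not_le.1 (h (s0 + k) (by omega) (by omega))
    have h3 : ((bl T H A (s0 + k)).ncard : ℝ) + (cut T (bl T H A (s0 + k)) (H \ bl T H A (s0 + k)) : ℝ) ≤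
        ((bl T H A (s0 + (k + 1))).ncard : ℝ) := by
      exact_mod_cast bl_grow T H A (s0 + k)
    have h4 : (1 + μ / 12) * ((1 + μ / 12) ^ k * ((bl T H A s0).ncard : ℝ)) ≤
        (1 + μ / 12) * ((bl T H A (s0 + k)).ncard : ℝ) := mul_le_mul_of_nonneg_left h1 (by positivity)
    calc (1 + μ / 12) ^ (k + 1) * ((bl T H A s0).ncard : ℝ)
        = (1 + μ / 12) * ((1 + μ / 12) ^ k * ((bl T H A s0).ncard : ℝ)) := by ring
      _ ≤ (1 + μ / 12) * ((bl T H A (s0 + k)).ncard : ℝ) := h4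
      _ ≤ ((bl T H A (s0 + (k + 1))).ncard : ℝ) := by linarith

theorem stop [Finite D] {μ : ℝ} (hμ : 0 < μ) (T : Tri D) (H A : Set D) (s0 : ℕ) :
    ∃ k : ℕ, Sc μ T H A (s0 + k) ∧ (∀ s, s0 ≤ s → s < s0 + k → ¬ Sc μ T H A s) ∧
      (1 + μ / 12) ^ k * ((bl T H A s0).ncard : ℝ) ≤ (bl T H A (s0 + k)).ncard := by
  have hex : ∃ k : ℕ, Sc μ T H A (s0 + k) := by
    by_contra hcon
    push Not at hcon
    have h1 : ∀ s, s0 ≤ s → ¬ Sc μ T H A s := by
      intro s hs
      have h2 := hcon (s - s0)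
      rwa [Nat.add_sub_cancel' hs] at h2
    have h2 : 0 < (bl T H A s0).ncard := by
      by_contra h3
      apply h1 s0 le_rfl
      have h4 : (bl T H A s0).ncard = 0 := by omega
      have h5 : cut T (bl T H A s0) (H \ bl T H A s0) ≤ (bl T H A s0).ncard :=
        Set.ncard_le_ncard (fun d hd => hd.1) (Set.toFinite _)
      have h6 : cut T (bl T H A s0) (H \ bl T H A s0) = 0 := by omega
      show (cut T (bl T H A s0) (H \ bl T H A s0) : ℝ) ≤ μ / 4 * (((bl T H A s0).ncard : ℝ) / 3)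
      rw [h6, h4, Nat.cast_zero, zero_div, mul_zero]
    obtain ⟨k, hk⟩ := pow_unbounded_of_one_lt (Nat.card D : ℝ) (show (1 : ℝ) < 1 + μ / 12 by linarith)
    have h3 := grow hμ T H A s0 k fun s hs _ => h1 s hs
    have h4 : ((bl T H A (s0 + k)).ncard : ℝ) ≤ Nat.card D := by
      rw [← Set.ncard_univ]
      exact_mod_cast Set.ncard_le_ncard (Set.subset_univ _) (Set.toFinite _)
    have h5 : (1 : ℝ) ≤ ((bl T H A s0).ncard : ℝ) := by exact_mod_cast h2
    have h6 : (1 + μ / 12) ^ k * 1 ≤ (1 + μ / 12) ^ k * ((bl T H A s0).ncard : ℝ) :=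
      mul_le_mul_of_nonneg_left h5 (by positivity)
    linarith
  have h0 : ∀ s, s0 ≤ s → s < s0 + Nat.find hex → ¬ Sc μ T H A s := by
    intro s h1 h2 h3
    refine Nat.find_min hex (m := s - s0) (by omega) ?_
    rw [Nat.add_sub_cancel' h1]
    exact h3
  exact ⟨Nat.find hex, Nat.find_spec hex, h0, grow hμ T H A s0 _ h0⟩

end SYS.PG
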