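import Pool.Agent.SYS.PG.Bl
import Pool.Agent.SYS.PG.Cu

/-!
# SYSS-PG-Bs: the ball process in the component of the gate (first part of 2.2)

`C` is a connected face set inside the hidden darts `Hd`, `f0 ∈ C`.

PLAN.  Among the face sets `B` with `Fs T B`, `DC T B`, `f0 ∈ B ⊆ C`, `B ⊆ Inn T Hd f0 M Q A` and
(`B` = face of `f0` or `cut T B (C \ B) ≤ μ / 4 |B|`) take one with `B.ncard` maximal (`Set D` is finite; the face of `f0` is one: it
is connected, and inner by the first clause of `IsInn`).  If `M < per B` or `3 A < B.ncard` then `B` is not the face of `f0`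
(`per ≤ 3 ≤ M`, `B.ncard = 3 ≤ 3 A`): case 2.  Otherwise `bl T Hd B (Q - 1) ⊆ Inn` (second clause; `Inn` is the intersection of the sets
`I`: `B ⊆ Inn ⊆ I`).  If `B = C`: case 1.  Otherwise for every `s` with `Q / 2 ≤ s ≤ Q - 1` (so `1 ≤ s`): `B' = bl T C B s` is connected
(`bl_dc`), larger than `B` (`bl_ne`; `B = bl T C B 0 ⊆ B'`), inner (`bl_mono'`, `bl_mono`), so `Sc μ T C B s` fails by maximality (`C \ B'`
is the set in `Sc`): case 3.
-/

namespace SYS.PG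

open Classical SST SYS.XP SYS.CO

variable {D : Type}

private theorem tri_f (T : Tri D) (x d : D) :
    T.f d ∈ ({x, T.f x, T.f (T.f x)} : Set D) ↔ d ∈ ({x, T.f x, T.f (T.f x)} : Set D) := by
  constructor
  · rintro (h | h | h)
    · right; right
      apply T.f.injective
      show T.f d = T.f (T.f (T.f x))
      rw [T.fff, h]
    · left
      exact T.f.injective h
    · right; left
      exact T.f.injective h
  · rintro (rfl | rfl | rfl)
    · exact Or.inr (Or.inl rfl)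
    · exact Or.inr (Or.inr rfl)
    · left
      exact T.fff x

private theorem tri_dc (T : Tri D) (x : D) : DC T ({x, T.f x, T.f (T.f x)} : Set D) := by
  intro Z hZ hne hf _
  refine Set.Subset.antisymm hZ ?_
  have h1 : x ∈ Z := by
    obtain ⟨z, hz⟩ := hne
    rcases hZ hz with h | h | h
    · rw [← h]
      exact hz
    · have h2 := hf _ (hf _ hz)
      rw [h, T.fff] at h2
      exact h2
    · have h2 := hf _ hz
      rw [Set.mem_singleton_iff.1 h, T.fff] at h2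
      exact h2
  rintro e (rfl | rfl | rfl)
  · exact h1
  · exact hf _ h1
  · exact hf _ (hf _ h1)

theorem balls [Finite D] {T : Tri D} {Hd C : Set D} {f0 : D} {μ : ℝ} {M Q A : ℕ} (hC : Fs T C) (hd : DC T C) (hf : f0 ∈ C)
    (hCH : C ⊆ Hd) (hM : 3 ≤ M) (hA : 1 ≤ A) (hQ : 2 ≤ Q) :
    ∃ B : Set D, Fs T B ∧ DC T B ∧ f0 ∈ B ∧ B ⊆ C ∧ B ⊆ Inn T Hd f0 M Q A ∧
      (B = C ∨
        ((M < (bdy T B).ncard ∨ 3 * A < B.ncard) ∧ (cut T B (C \ B) : ℝ) ≤ μ / 4 * (B.ncard / 3)) ∨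
        (B ≠ C ∧ (∀ s, Q / 2 ≤ s → s ≤ Q - 1 → ¬ Sc μ T C B s) ∧ bl T C B (Q - 1) ⊆ Inn T Hd f0 M Q A)) := by
  obtain ⟨F, hF⟩ : ∃ F : Set (Set D), F = {B | Fs T B ∧ DC T B ∧ f0 ∈ B ∧ B ⊆ C ∧ B ⊆ Inn T Hd f0 M Q A ∧
      (B = {f0, T.f f0, T.f (T.f f0)} ∨ (cut T B (C \ B) : ℝ) ≤ μ / 4 * (B.ncard / 3))} := ⟨_, rfl⟩
  have hne : F.Nonempty := by
    refine ⟨{f0, T.f f0, T.f (T.f f0)}, ?_⟩
    rw [hF]
    refine ⟨tri_f T f0, tri_dc T f0, Or.inl rfl, ?_, ?_, Or.inl rfl⟩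
    · rintro e (rfl | rfl | rfl)
      · exact hf
      · exact (hC _).2 hf
      · exact (hC _).2 ((hC _).2 hf)
    · rintro e he I hI
      exact hI.1 e he
  obtain ⟨B, hBF, hmax⟩ := Set.exists_max_image F (fun B => B.ncard) (Set.toFinite F) hne
  rw [hF] at hBF
  obtain ⟨hBf, hBd, hB0, hBC, hBI, hBc⟩ := hBF
  refine ⟨B, hBf, hBd, hB0, hBC, hBI, ?_⟩
  by_cases h1 : B = C
  · exact Or.inl h1
  right
  by_cases h2 : M < (bdy T B).ncard ∨ 3 * A < B.ncard
  · left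
    refine ⟨h2, hBc.resolve_left fun h3 => ?_⟩
    have h4 : B.ncard = 3 := by
      rw [h3]
      exact face_card T f0
    have h5 : (bdy T B).ncard ≤ B.ncard := Set.ncard_le_ncard (fun d hd => hd.1) (Set.toFinite _)
    omega
  · right
    push Not at h2
    have h3 : bl T Hd B (Q - 1) ⊆ Inn T Hd f0 M Q A := by
      intro d hd I hI
      exact hI.2 B (fun e he => hBI he I hI) hBf hBd hB0 h2.1 h2.2 hd
    have h4 : ∀ s, s ≤ Q - 1 → bl T C B s ⊆ Inn T Hd f0 M Q A :=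
      fun s hs d hd => h3 (bl_mono T Hd B hs (bl_mono' T hCH (fun _ h => h) s hd))
    refine ⟨h1, fun s hs1 hs2 hsc => ?_, h4 _ le_rfl⟩
    have hBb : B ⊆ bl T C B s := fun d hd => bl_mono T C B (Nat.zero_le s) ⟨hBC hd, hd⟩
    have h5 : bl T C B s ∈ F := by
      rw [hF]
      exact ⟨bl_fs hC hBf s, bl_dc hC hBf hBC hBd ⟨f0, hB0⟩ s, hBb hB0, bl_sub T C B s, h4 s hs2, Or.inr hsc⟩
    have h6 : (bl T C B s).ncard ≤ B.ncard := hmax _ h5
    have h7 : B = bl T C B s := Set.eq_of_subset_of_ncard_le hBb h6 (Set.toFinite _)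
    exact bl_ne hC hBf hBC hd ⟨f0, hB0⟩ h1 (by omega) h7.symm

end SYS.PG
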