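import Pool.Agent.SYS.PG.Defs

/-!
# SYSS-PG-Cp: components of a face set

`cp T H x`: the darts of `H` which are linked to `x` through the edges inside `H`.

PLAN.  Everything from `lk_refl`, `lk_symm`, `lk_trans`, `lk_f`, `lk_a`, `lk_mono`, `dc_lk` of CO/Bas.
* `cp_dc`: use `dc_lk`: for `y, z ∈ cp T H x`: `Lk T (ins T H) y z`; show `Lk T (ins T (cp T H x)) y z` by the induction `lk_ind` with
  `P d e := (d ∈ cp T H x ↔ e ∈ cp T H x) ∧ (d ∈ cp T H x → Lk T (ins T (cp T H x)) d e)`.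
* `dc_sub_cp`: `dc_lk` for `C` and `lk_mono` (`ins_mono`).
-/

namespace SYS.PG

open Classical SST SYS.XP SYS.CO

variable {D : Type}

theorem cp_self {T : Tri D} {H : Set D} {x : D} (hx : x ∈ H) : x ∈ cp T H x := by
  exact ⟨hx, lk_refl T _ x⟩

theorem cp_sub (T : Tri D) (H : Set D) (x : D) : cp T H x ⊆ H := by
  exact fun _ hy => hy.1

theorem cp_eq {T : Tri D} {H : Set D} {x y : D} (hx : x ∈ H) (h : y ∈ cp T H x) : cp T H y = cp T H x := by
  have _ := hx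
  ext z
  exact ⟨fun hz => ⟨hz.1, lk_trans h.2 hz.2⟩, fun hz => ⟨hz.1, lk_trans (lk_symm h.2) hz.2⟩⟩

theorem cp_fs {T : Tri D} {H : Set D} (hH : Fs T H) (x : D) : Fs T (cp T H x) := by
  intro d
  constructor
  · rintro ⟨h1, h2⟩
    exact ⟨(hH d).1 h1, lk_trans h2 (lk_symm (lk_f T _ d))⟩
  · rintro ⟨h1, h2⟩
    exact ⟨(hH d).2 h1, lk_trans h2 (lk_f T _ d)⟩

theorem cp_a {T : Tri D} {H : Set D} {x d : D} (hd : d ∈ cp T H x) (ha : T.a d ∈ H) : T.a d ∈ cp T H x := by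
  exact ⟨ha, lk_trans hd.2 (lk_a T ⟨hd.1, ha⟩)⟩

private theorem cp_lift {T : Tri D} {H : Set D} (hH : Fs T H) (x : D) {y z : D} (h : Lk T (ins T H) y z) :
    (y ∈ cp T H x ↔ z ∈ cp T H x) ∧ (y ∈ cp T H x → Lk T (ins T (cp T H x)) y z) := by
  refine lk_ind (fun d e => (d ∈ cp T H x ↔ e ∈ cp T H x) ∧ (d ∈ cp T H x → Lk T (ins T (cp T H x)) d e))
    (fun d => ⟨Iff.rfl, fun _ => lk_refl T _ d⟩) ?_ ?_ ?_ ?_ h
  · rintro d e ⟨h1, h2⟩
    exact ⟨h1.symm, fun h3 => lk_symm (h2 (h1.2 h3))⟩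
  · rintro d e k ⟨h1, h2⟩ ⟨h3, h4⟩
    exact ⟨h1.trans h3, fun h5 => lk_trans (h2 h5) (h4 (h1.1 h5))⟩
  · intro d
    exact ⟨(cp_fs hH x d).symm, fun _ => lk_f T _ d⟩
  · intro d hd
    have h1 : d ∈ cp T H x → T.a d ∈ cp T H x := fun h2 => cp_a h2 hd.2
    have h2 : T.a d ∈ cp T H x → d ∈ cp T H x := by
      intro h3
      have h4 := cp_a h3 (by rw [T.aa]; exact hd.1)
      rw [T.aa] at h4
      exact h4
    exact ⟨⟨h1, h2⟩, fun h3 => lk_a T ⟨h3, h1 h3⟩⟩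

theorem cp_dc {T : Tri D} {H : Set D} (hH : Fs T H) (x : D) : DC T (cp T H x) := by
  rw [dc_lk (cp_fs hH x)]
  intro y hy z hz
  exact (cp_lift hH x (lk_trans (lk_symm hy.2) hz.2)).2 hy

/-- A connected face set in `H` which contains `x` lies in the component. -/
theorem dc_sub_cp {T : Tri D} {H C : Set D} (hC : Fs T C) (hd : DC T C) (hCH : C ⊆ H) {x : D} (hx : x ∈ C) :
    C ⊆ cp T H x := by
  intro y hy
  exact ⟨hCH hy, lk_mono (ins_mono T hCH) ((dc_lk hC).1 hd x hx y hy)⟩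

/-- The darts of a face have a common representative. -/
theorem exists_rep (T : Tri D) : ∃ r : D → D, ∀ x, r (T.f x) = r x ∧ (r x = x ∨ r x = T.f x ∨ r x = T.f (T.f x)) := by
  have hsym : ∀ x y : D, (y = x ∨ y = T.f x ∨ y = T.f (T.f x)) → (x = y ∨ x = T.f y ∨ x = T.f (T.f y)) := by
    rintro x y (rfl | rfl | rfl)
    · exact Or.inl rfl
    · exact Or.inr (Or.inr (T.fff x).symm)
    · exact Or.inr (Or.inl (T.fff x).symm)
  have htr : ∀ x y z : D, (y = x ∨ y = T.f x ∨ y = T.f (T.f x)) → (z = y ∨ z = T.f y ∨ z = T.f (T.f y)) →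
      (z = x ∨ z = T.f x ∨ z = T.f (T.f x)) := by
    rintro x y z (rfl | rfl | rfl) (rfl | rfl | rfl)
    · exact Or.inl rfl
    · exact Or.inr (Or.inl rfl)
    · exact Or.inr (Or.inr rfl)
    · exact Or.inr (Or.inl rfl)
    · exact Or.inr (Or.inr rfl)
    · exact Or.inl (T.fff x)
    · exact Or.inr (Or.inr rfl)
    · exact Or.inl (T.fff x)
    · refine Or.inr (Or.inl ?_)
      rw [T.fff x]
  let S : Setoid D := ⟨fun x y => y = x ∨ y = T.f x ∨ y = T.f (T.f x),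
    ⟨fun _ => Or.inl rfl, fun {x y} h => hsym x y h, fun {x y z} h h' => htr x y z h h'⟩⟩
  refine ⟨fun x => (Quotient.mk S x).out, fun x => ⟨?_, ?_⟩⟩
  · have h1 : Quotient.mk S (T.f x) = Quotient.mk S x :=
      Quotient.sound (hsym x (T.f x) (Or.inr (Or.inl rfl)))
    show (Quotient.mk S (T.f x)).out = (Quotient.mk S x).out
    rw [h1]
  · have h1 : S.r (Quotient.mk S x).out x := Quotient.mk_out x
    exact hsym _ _ h1

end SYS.PG
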