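import Pool.Agent.SYS.PG.At
import Pool.Agent.SYS.PG.Cu
import Pool.Agent.SYS.CO.Un

/-!
# SYSS-PG-Dr: parts of a triple which carry no new classes can be dropped

`(H, Θ)` admissible for `(Y, E)`; `E ⊆ E'` with `VV T E' ≤ VV T E` (planar steps).  A part `K` of `H` without edges to `H \ K` whose darts
are all in `E'`, and a part `ΘK ⊆ E'` of `Θ`, may be dropped if `K` contains no target.

PLAN.
* `drop`: `H2 = H \ K`, `Θ2 = Θ \ ΘK`, `E1 = EE T Y E H2 Θ2`, `Y1 = Y ∪ H2`, `E2 = E ∪ ed T Y K ∪ ΘK`, `Y2 = Y ∪ K`.  `EE T Y E H Θ ⊆ E1 ∪ E2` (an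
  edge with one dart in `K` has the other in `Y` or `K`).  `E2 ⊆ E'`: a dart of `ed T Y K` or its opposite is in `K`.  `Y1 ∩ Y2 = Y` (`K`
  and `H2` are disjoint and off `Y`), `E ⊆ E1 ∩ E2`, so `CO.VV_add` (with `VV T E2 ≤ VV T E' ≤ VV T E ≤ VV T E1`) gives
  `VV T (E1 ∪ E2) = VV T E1`, hence the rank.  `Att T Y H2` by `att_iff`: `Z ⊆ H2`; the edge `d ∈ Z` of the criterion for `H` has `T.a d ∈ Y` or
  `T.a d ∈ H`, `T.a d ∉ Z`; in the second case `T.a d ∉ K` (otherwise `d = T.a (T.a d) ∈ K` by `hKa`).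
* `theta`: `drop` with `K = ∅`, `ΘK = {d, T.a d}` (two elements, `T.ane`): smaller value.
* `comp`: `drop` with `ΘK = ∅`; `Ph (H \ K) = Ph H - per K - μ |K| + 0 < Ph H` (`Ph_diff`, `cut_zero`, `Set.ncard_pos`).
-/

namespace SYS.PG

open Classical SST SYS.XP SYS.CO

variable {D : Type}

theorem drop [Finite D] {T : Tri D} {N : ℕ} {t Y E H Θ E' K ΘK : Set D} (hR : Rg T Y E) (hA : Adm T N t Y E H Θ)
    (hE' : ∀ d, T.a d ∈ E' ↔ d ∈ E') (hEE : E ⊆ E') (hV : VV T E' ≤ VV T E)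
    (hKf : Fs T K) (hKH : K ⊆ H) (hKa : ∀ d ∈ K, T.a d ∈ H → T.a d ∈ K) (hKE : K ⊆ E') (hKt : ∀ x ∈ t, x ∉ K)
    (hTa : ∀ d, T.a d ∈ ΘK ↔ d ∈ ΘK) (hT : ΘK ⊆ Θ) (hTE : ΘK ⊆ E') : Adm T N t Y E (H \ K) (Θ \ ΘK) := by
  have hfs : Fs T (H \ K) := fun d => and_congr (hA.adc.fs d) (not_congr (hKf d))
  have hadc : Adc T Y E (H \ K) (Θ \ ΘK) :=
    ⟨hfs, fun d hd => hA.adc.dis d hd.1, fun d => and_congr (hA.adc.tha d) (not_congr (hTa d)),
      fun d hd => hA.adc.thy d hd.1, fun d hd => hA.adc.the d hd.1⟩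
  have hKa' : ∀ d ∈ H, T.a d ∈ K → d ∈ K := by
    intro d hd h
    have h1 := hKa _ h (by rw [T.aa]; exact hd)
    rwa [T.aa] at h1
  refine ⟨hadc, ?_, ?_, fun x hx => ?_⟩
  · rw [att_iff hfs hadc.dis]
    intro Z hZ hne hf
    obtain ⟨d, hdZ, h1⟩ := (att_iff hA.adc.fs hA.adc.dis).1 hA.att Z (fun d hd => (hZ hd).1) hne hf
    refine ⟨d, hdZ, ?_⟩
    rcases h1 with h1 | ⟨h1, h2⟩
    · exact Or.inl h1
    · exact Or.inr ⟨⟨h1, fun h3 => (hZ hdZ).2 (hKa' d (hZ hdZ).1 h3)⟩, h2⟩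
  · have hs1 : EE T Y E (H \ K) (Θ \ ΘK) ⊆ Y ∪ (H \ K) := fun d hd => (ee_sub hR hadc hd).1
    have hs2 : E ∪ ed T Y K ∪ ΘK ⊆ Y ∪ K := by
      rintro d ((h | h) | h)
      · exact Or.inl (hR.ey d h)
      · exact (ed_sub T Y K h).1
      · exact Or.inl (hA.adc.thy d (hT h))
    have hsub : EE T Y E H Θ ⊆ EE T Y E (H \ K) (Θ \ ΘK) ∪ (E ∪ ed T Y K ∪ ΘK) := by
      rintro d ((h | h) | h)
      · exact Or.inl (Or.inl (Or.inl h))
      · rcases h with ⟨h1, h2 | h2⟩ | ⟨h1, h2⟩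
        · by_cases h3 : d ∈ K
          · exact Or.inr (Or.inl (Or.inr (Or.inl ⟨h3, Or.inl h2⟩)))
          · exact Or.inl (Or.inl (Or.inr (Or.inl ⟨⟨h1, h3⟩, Or.inl h2⟩)))
        · by_cases h3 : d ∈ K
          · exact Or.inr (Or.inl (Or.inr (Or.inl ⟨h3, Or.inr (hKa d h3 h2)⟩)))
          · exact Or.inl (Or.inl (Or.inr (Or.inl ⟨⟨h1, h3⟩, Or.inr ⟨h2, fun h4 => h3 (hKa' d h1 h4)⟩⟩)))
        · by_cases h3 : T.a d ∈ K
          · exact Or.inr (Or.inl (Or.inr (Or.inr ⟨h3, h2⟩)))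
          · exact Or.inl (Or.inl (Or.inr (Or.inr ⟨⟨h1, h3⟩, h2⟩)))
      · by_cases h3 : d ∈ ΘK
        · exact Or.inr (Or.inr h3)
        · exact Or.inl (Or.inr ⟨h, h3⟩)
    have h2E : E ∪ ed T Y K ∪ ΘK ⊆ E' := by
      rintro d ((h | h) | h)
      · exact hEE h
      · rcases h with ⟨h1, -⟩ | ⟨h1, -⟩
        · exact hKE h1
        · exact (hE' d).1 (hKE h1)
      · exact hTE h
    have hYY : ∀ d ∈ (Y ∪ (H \ K)) ∩ (Y ∪ K), d ∈ Y := by
      rintro d ⟨h1 | h1, h2 | h2⟩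
      · exact h1
      · exact h1
      · exact h2
      · exact absurd h2 h1.2
    have h3 := VV_add (T := T) (E1 := EE T Y E (H \ K) (Θ \ ΘK)) (E2 := E ∪ ed T Y K ∪ ΘK)
      (Y1 := Y ∪ (H \ K)) (Y2 := Y ∪ K) (ee_a hR hadc)
      (fun d => or_congr (or_congr (hR.ea d) (ed_a T Y K d)) (hTa d))
      (fun d => or_congr (hR.fs d) (hfs d)) (fun d => or_congr (hR.fs d) (hKf d)) hs1 hs2
      (fun d hd e he => lk_mono (E := E) (E' := EE T Y E (H \ K) (Θ \ ΘK) ∩ (E ∪ ed T Y K ∪ ΘK))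
        (fun x hx => ⟨Or.inl (Or.inl hx), Or.inl (Or.inl hx)⟩) (hR.con d (hYY d hd) e (hYY e he)))
      ((VV_mono h2E).trans (hV.trans (VV_mono fun x hx => Or.inl (Or.inl hx))))
    have h4 : rk T (EE T Y E (H \ K) (Θ \ ΘK) ∪ (E ∪ ed T Y K ∪ ΘK)) = rk T (EE T Y E (H \ K) (Θ \ ΘK)) := by
      unfold rk
      rw [h3]
    rw [← h4]
    exact hA.rank.trans (rk_mono hsub)
  · rcases hA.tg x hx with h | h
    · exact Or.inl h
    · exact Or.inr ⟨h, hKt x hx⟩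

theorem theta [Finite D] {T : Tri D} {μ : ℝ} {N : ℕ} {t Y E H Θ E' : Set D} (hR : Rg T Y E)
    (hM : Mn T μ N t Y E H Θ) (hE' : ∀ d, T.a d ∈ E' ↔ d ∈ E') (hEE : E ⊆ E') (hV : VV T E' ≤ VV T E) {d : D}
    (hd : d ∈ Θ) (hdE : d ∈ E') : False := by
  have h1 := drop (K := ∅) (ΘK := {d, T.a d}) hR hM.adm hE' hEE hV (fun e => Iff.rfl) (Set.empty_subset _)
    (fun e he => absurd he (Set.notMem_empty _)) (Set.empty_subset _) (fun e _ => Set.notMem_empty _) ?_ ?_ ?_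
  · have h2 := hM.min _ _ h1
    rw [Set.sdiff_empty] at h2
    have h3 : (Θ \ {d, T.a d}).ncard < Θ.ncard := by
      refine Set.ncard_lt_ncard ?_ (Set.toFinite _)
      rw [Set.ssubset_iff_of_subset Set.sdiff_subset]
      exact ⟨d, hd, fun h3 => h3.2 (Or.inl rfl)⟩
    have h4 : ((Θ \ {d, T.a d}).ncard : ℝ) < (Θ.ncard : ℝ) := by exact_mod_cast h3
    unfold val at h2
    linarith
  · intro e
    constructor
    · rintro (h2 | h2)
      · right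
        rw [← h2, T.aa]
        rfl
      · left
        exact T.a.injective h2
    · rintro (h2 | h2)
      · right
        rw [h2]
        rfl
      · left
        rw [Set.mem_singleton_iff.1 h2, T.aa]
  · rintro e (h2 | h2)
    · rw [h2]
      exact hd
    · rw [Set.mem_singleton_iff.1 h2]
      exact (hM.adm.adc.tha d).2 hd
  · rintro e (h2 | h2)
    · rw [h2]
      exact hdE
    · rw [Set.mem_singleton_iff.1 h2]
      exact (hE' d).2 hdE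

theorem comp [Finite D] {T : Tri D} {μ : ℝ} (hμ : 0 < μ) {N : ℕ} {t Y E H Θ E' K : Set D} (hR : Rg T Y E)
    (hM : Mn T μ N t Y E H Θ) (hE' : ∀ d, T.a d ∈ E' ↔ d ∈ E') (hEE : E ⊆ E') (hV : VV T E' ≤ VV T E)
    (hKf : Fs T K) (hKH : K ⊆ H) (hKa : ∀ d ∈ K, T.a d ∈ H → T.a d ∈ K) (hKE : K ⊆ E') (hKt : ∀ x ∈ t, x ∉ K)
    (hne : K.Nonempty) : False := by
  have h1 := drop (ΘK := ∅) hR hM.adm hE' hEE hV hKf hKH hKa hKE hKt (fun e => Iff.rfl) (Set.empty_subset _)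
    (Set.empty_subset _)
  have h2 := hM.min _ _ h1
  rw [Set.sdiff_empty] at h2
  unfold val at h2
  rw [Ph_diff T hKH, cut_zero T hKa] at h2
  have h3 : (0 : ℝ) < (K.ncard : ℝ) := by exact_mod_cast (Set.ncard_pos (Set.toFinite _)).2 hne
  have h4 : (0 : ℝ) ≤ ((bdy T K).ncard : ℝ) := Nat.cast_nonneg _
  have h5 : 0 < μ * ((K.ncard : ℝ) / 3) := by positivity
  rw [Nat.cast_zero] at h2
  linarith

end SYS.PG
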