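import Pool.Agent.SYS.PG.Sh
import Pool.Agent.SYS.PG.Bl
import Pool.Agent.SYS.PG.Cp

/-!
# SYSS-PG-Gx: attached sets for the faces of `H`

`H2 = H \ bl T H (nb T Y) s`.  Every face of `Y ∪ H` is contained in `Y` or in an attached set `K ∪ S`: `K` a component of `H2` (or empty),
`S` at most `s + 1` faces.
-/

namespace SYS.PG

open Classical SST SYS.XP SYS.CO

variable {D : Type}

/-- The properties of the attached set `K ∪ S` for the dart `x`. -/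
structure GX (T : Tri D) (Y H : Set D) (s : ℕ) (x : D) (K S : Set D) : Prop where
  fk : Fs T K
  fs : Fs T S
  kh : K ⊆ H \ bl T H (nb T Y) s
  ka : ∀ d ∈ K, T.a d ∈ H \ bl T H (nb T Y) s → T.a d ∈ K
  sh : S ⊆ H
  sy : ∀ d ∈ S, d ∉ Y
  ky : ∀ d ∈ K, d ∉ Y
  card : S.ncard ≤ 3 * (s + 1)
  att : Att T Y (K ∪ S)
  mem : x ∈ Y ∨ x ∈ K ∪ S

private theorem gx_fs_empty (T : Tri D) : Fs T (∅ : Set D) := fun _ =>
  ⟨fun h => absurd h (Set.notMem_empty _), fun h => absurd h (Set.notMem_empty _)⟩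

private theorem gx_near {T : Tri D} {Y H : Set D} {s : ℕ} {d : D} (hd : d ∈ H) (h : d ∈ nb T Y) :
    d ∈ bl T H (nb T Y) s := bl_mono T H (nb T Y) (Nat.zero_le s) ⟨hd, h⟩

theorem gx [Finite D] {T : Tri D} {Y H : Set D} (hY : Fs T Y) (hne : Y.Nonempty) (hH : Fs T H)
    (hdc : DC T (Y ∪ H)) (s : ℕ) {x : D} (hx : x ∈ Y ∪ H) : ∃ K S : Set D, GX T Y H s x K S := by
  by_cases hxY : x ∈ Y
  · refine ⟨∅, ∅, gx_fs_empty T, gx_fs_empty T, Set.empty_subset _, fun d hd => absurd hd (Set.notMem_empty d),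
      Set.empty_subset _, fun d hd => absurd hd (Set.notMem_empty d), fun d hd => absurd hd (Set.notMem_empty d), ?_, ?_,
      Or.inl hxY⟩
    · rw [Set.ncard_empty]
      exact Nat.zero_le _
    · rw [Set.union_empty]
      exact att_empty T Y
  have hxH : x ∈ H := hx.resolve_left hxY
  by_cases hxB : x ∈ bl T H (nb T Y) s
  · obtain ⟨S, h1, h2, h3, h4, h5, h6⟩ := short hY hH s hxB hxY
    refine ⟨∅, S, gx_fs_empty T, h1, Set.empty_subset _, fun d hd => absurd hd (Set.notMem_empty d),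
      h2.trans (bl_sub T H _ s), h3, fun d hd => absurd hd (Set.notMem_empty d), h5, ?_, Or.inr (Or.inr h4)⟩
    rw [Set.empty_union]
    exact h6
  obtain ⟨B, hBd⟩ : ∃ B, B = bl T H (nb T Y) s := ⟨_, rfl⟩
  rw [← hBd] at hxB
  have hB : Fs T B := by
    rw [hBd]
    exact bl_fs hH (nb_fs hY) s
  have hH2 : Fs T (H \ B) := fun d => and_congr (hH d) (not_congr (hB d))
  have hxK : x ∈ cp T (H \ B) x := cp_self ⟨hxH, hxB⟩
  have hK : Fs T (cp T (H \ B) x) := cp_fs hH2 x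
  have hKH : cp T (H \ B) x ⊆ H \ B := cp_sub T _ x
  have hnear : ∀ d ∈ cp T (H \ B) x, d ∉ nb T Y := by
    intro d hd h
    apply (hKH hd).2
    rw [hBd]
    exact gx_near (hKH hd).1 h
  have hKY : ∀ d ∈ cp T (H \ B) x, d ∉ Y := fun d hd h => hnear d hd (Or.inl h)
  obtain ⟨d, hd, hd1, hd2⟩ : ∃ d ∈ cp T (H \ B) x, T.a d ∈ Y ∪ H ∧ T.a d ∉ cp T (H \ B) x := by
    by_contra hcon
    push Not at hcon
    have h1 := hdc (cp T (H \ B) x) (fun e he => Or.inr (hKH he).1) ⟨x, hxK⟩ (fun e he => (hK e).2 he) hcon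
    obtain ⟨y, hy⟩ := hne
    have h2 : y ∈ cp T (H \ B) x := by
      rw [h1]
      exact Or.inl hy
    exact hKY y h2 hy
  have hyY : T.a d ∉ Y := fun h => hnear d hd (Or.inr (Or.inl h))
  have hyH : T.a d ∈ H := hd1.resolve_left hyY
  have hyB : T.a d ∈ B := by
    by_contra h
    exact hd2 (cp_a hd ⟨hyH, h⟩)
  rw [hBd] at hyB
  obtain ⟨S, h1, h2, h3, h4, h5, h6⟩ := short hY hH s hyB hyY
  refine ⟨cp T (H \ B) x, S, hK, h1, ?_, ?_, h2.trans (bl_sub T H _ s), h3, hKY, h5, ?_, Or.inr (Or.inl hxK)⟩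
  · rw [← hBd]
    exact hKH
  · rw [← hBd]
    exact fun e he => cp_a he
  · rintro e (he | he)
    · obtain ⟨b, hb, hlk⟩ := h6 _ h4
      have e1 : Lk T (ins T (cp T (H \ B) x)) e d := (dc_lk hK).1 (cp_dc hH2 x) e he d hd
      have e2 : ins T (cp T (H \ B) x) ⊆ ed T Y (cp T (H \ B) x ∪ S) :=
        fun c hc => Or.inl ⟨Or.inl hc.1, Or.inr (Or.inl hc.2)⟩
      have e3 : Lk T (ed T Y (cp T (H \ B) x ∪ S)) d (T.a d) :=
        lk_a T (Or.inl ⟨Or.inl hd, Or.inr (Or.inr h4)⟩)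
      exact ⟨b, hb, lk_trans (lk_mono e2 e1) (lk_trans e3 (lk_mono (ed_mono T Y Set.subset_union_right) hlk))⟩
    · obtain ⟨b, hb, hlk⟩ := h6 e he
      exact ⟨b, hb, lk_mono (ed_mono T Y Set.subset_union_right) hlk⟩

theorem gxs [Finite D] {T : Tri D} {Y H : Set D} (hY : Fs T Y) (hne : Y.Nonempty) (hH : Fs T H)
    (hdc : DC T (Y ∪ H)) (s : ℕ) :
    ∃ K S : D → Set D, (∀ x, K (T.f x) = K x ∧ S (T.f x) = S x) ∧ ∀ x ∈ Y ∪ H, GX T Y H s x (K x) (S x) := by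
  obtain ⟨r, hr⟩ := exists_rep T
  have hrep : ∀ A : Set D, Fs T A → ∀ x, r x ∈ A ↔ x ∈ A := by
    intro A hA x
    rcases (hr x).2 with h | h | h
    · rw [h]
    · rw [h, hA x]
    · rw [h, hA _, hA x]
  have hex : ∀ x : D, ∃ P : Set D × Set D, x ∈ Y ∪ H → GX T Y H s x P.1 P.2 := by
    intro x
    by_cases hx : x ∈ Y ∪ H
    · obtain ⟨K, S, h⟩ := gx hY hne hH hdc s hx
      exact ⟨(K, S), fun _ => h⟩
    · exact ⟨(∅, ∅), fun h => absurd h hx⟩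
  choose P hP using hex
  refine ⟨fun x => (P (r x)).1, fun x => (P (r x)).2, fun x => ?_, fun x hx => ?_⟩
  · show (P (r (T.f x))).1 = (P (r x)).1 ∧ (P (r (T.f x))).2 = (P (r x)).2
    rw [(hr x).1]
    exact ⟨rfl, rfl⟩
  · have h0 : Fs T (Y ∪ H) := fun d => or_congr (hY d) (hH d)
    have h1 := hP (r x) ((hrep _ h0 x).2 hx)
    have h2 : Fs T ((P (r x)).1 ∪ (P (r x)).2) := fun d => or_congr (h1.fk d) (h1.fs d)
    exact ⟨h1.fk, h1.fs, h1.kh, h1.ka, h1.sh, h1.sy, h1.ky, h1.card, h1.att,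
      h1.mem.imp (hrep Y hY x).1 (hrep _ h2 x).1⟩

end SYS.PG
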