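import Pool.Agent.SYS.PG.Re

/-!
# SYSS-PG-Rt: reattachment (2.1), general forms
-/

namespace SYS.PG

open Classical SST SYS.XP SYS.CO

variable {D : Type}

private theorem rt_pl {T : Tri D} {μ : ℝ} {N : ℕ} {t Y E : Set D} {v v' : ℝ} (h : PL T μ N t Y E v) (hv : v ≤ v') :
    PL T μ N t Y E v' := by
  obtain ⟨H, Θ, h1, h2⟩ := h
  exact ⟨H, Θ, h1, h2.trans hv⟩

private theorem rt_sc_empty {μ : ℝ} {T : Tri D} {H A : Set D} {s : ℕ} (h : bl T H A s = ∅) :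
    Sc μ T H A s := by
  unfold Sc cut
  rw [h]
  simp

theorem reatt [Finite D] {T : Tri D} {Y E H t : Set D} (hR : Rg T Y E) (hH : Fs T H) (hdc : DC T (Y ∪ H))
    {N τ : ℕ} (hN : N ≤ rk T (ins T (Y ∪ H))) (ht : ∀ x ∈ t, x ∈ Y ∨ x ∈ H) (htc : t.ncard ≤ τ) {μ : ℝ}
    {M Q A : ℕ} (hp : Pm μ (N + τ) M Q A) :
    PL T μ N t Y E (Ph μ T H + 8 * ((N + τ : ℕ) : ℝ) * (Q + 2)) := by
  obtain ⟨k, hs, hno, hgr⟩ := stop hp.mu T H (nb T Y) (Q / 2)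
  refine rt_pl (reattS hR hH hdc hN ht htc hp.mu hp.mu1 hs) ?_
  have hμ := hp.mu
  have h1 : (0 : ℝ) ≤ ((bdy T (bl T H (nb T Y) (Q / 2 + k))).ncard : ℝ) := Nat.cast_nonneg _
  have h2 : (0 : ℝ) ≤ ((N + τ : ℕ) : ℝ) := Nat.cast_nonneg _
  have h3 : (0 : ℝ) ≤ ((bl T H (nb T Y) (Q / 2 + k)).ncard : ℝ) := Nat.cast_nonneg _
  by_cases hQ : Q / 2 + k ≤ Q
  · have h4 : ((Q / 2 + k : ℕ) : ℝ) ≤ (Q : ℝ) := by exact_mod_cast hQ
    have h5 : 8 * ((N + τ : ℕ) : ℝ) * (((Q / 2 + k : ℕ) : ℝ) + 2) ≤ 8 * ((N + τ : ℕ) : ℝ) * ((Q : ℝ) + 2) :=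
      mul_le_mul_of_nonneg_left (by linarith) (by positivity)
    have h6 : 0 ≤ μ / 2 * (((bl T H (nb T Y) (Q / 2 + k)).ncard : ℝ) / 3) := by positivity
    linarith
  · have hk : 0 < k := by omega
    have h4 : ¬ Sc μ T H (nb T Y) (Q / 2) := hno (Q / 2) le_rfl (by omega)
    have h5 : (bl T H (nb T Y) (Q / 2)).Nonempty := by
      rw [Set.nonempty_iff_ne_empty]
      exact fun h => h4 (rt_sc_empty h)
    have h6 : 3 ≤ (bl T H (nb T Y) (Q / 2)).ncard :=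
      fs_card_pos T (bl_fs hH (nb_fs hR.fs) (Q / 2)) h5
    have h7 : (3 : ℝ) ≤ ((bl T H (nb T Y) (Q / 2)).ncard : ℝ) := by exact_mod_cast h6
    have h8 : (1 + μ / 12) ^ k * 3 ≤ (1 + μ / 12) ^ k * ((bl T H (nb T Y) (Q / 2)).ncard : ℝ) :=
      mul_le_mul_of_nonneg_left h7 (by positivity)
    have h9 := hp.ga k (by omega)
    have h10 : μ / 2 * (1 + μ / 12) ^ k ≤ μ / 2 * (((bl T H (nb T Y) (Q / 2 + k)).ncard : ℝ) / 3) :=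
      mul_le_mul_of_nonneg_left (by linarith) (by positivity)
    have h11 : 0 ≤ 8 * ((N + τ : ℕ) : ℝ) * ((Q : ℝ) + 2) := by positivity
    have h12 : (((Q / 2 + k : ℕ) : ℝ)) = ((Q / 2 : ℕ) : ℝ) + (k : ℝ) := Nat.cast_add _ _
    rw [h12]
    linarith

theorem reattF [Finite D] {T : Tri D} {Y E H t : Set D} (hR : Rg T Y E) (hH : Fs T H) (hdc : DC T (Y ∪ H))
    {N τ : ℕ} (hN : N ≤ rk T (ins T (Y ∪ H))) (ht : ∀ x ∈ t, x ∈ Y ∨ x ∈ H) (htc : t.ncard ≤ τ) {μ : ℝ}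
    {M Q A : ℕ} (hp : Pm μ (N + τ) M Q A)
    (hf : 3 * (1 + μ / 12) ^ (Q - 1 - Q / 2) ≤ ((H ∩ Y).ncard : ℝ)) :
    PL T μ N t Y E (Ph μ T H - M + 8 * ((N + τ : ℕ) : ℝ) * (Q + 2)) := by
  obtain ⟨k, hs, hno, hgr⟩ := stop hp.mu T H (nb T Y) (Q / 2)
  refine rt_pl (reattS hR hH hdc hN ht htc hp.mu hp.mu1 hs) ?_
  have hμ := hp.mu
  have h1 : (0 : ℝ) ≤ ((bdy T (bl T H (nb T Y) (Q / 2 + k))).ncard : ℝ) := Nat.cast_nonneg _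
  have h2 : H ∩ Y ⊆ bl T H (nb T Y) (Q / 2) := by
    have h3 : H ∩ Y ⊆ bl T H (nb T Y) 0 := fun d hd => ⟨hd.1, sub_nb T Y hd.2⟩
    exact h3.trans (bl_mono T H (nb T Y) (Nat.zero_le _))
  have h3 : ((H ∩ Y).ncard : ℝ) ≤ ((bl T H (nb T Y) (Q / 2)).ncard : ℝ) := by
    exact_mod_cast Set.ncard_le_ncard h2 (Set.toFinite _)
  have h4 : (1 + μ / 12) ^ k * (3 * (1 + μ / 12) ^ (Q - 1 - Q / 2)) ≤
      (1 + μ / 12) ^ k * ((bl T H (nb T Y) (Q / 2)).ncard : ℝ) :=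
    mul_le_mul_of_nonneg_left (hf.trans h3) (by positivity)
  have h5 : (1 + μ / 12) ^ k * (3 * (1 + μ / 12) ^ (Q - 1 - Q / 2)) =
      3 * (1 + μ / 12) ^ (k + (Q - 1 - Q / 2)) := by
    rw [pow_add]
    ring
  have h6 := hp.gb k
  have h7 : μ / 2 * (1 + μ / 12) ^ (k + (Q - 1 - Q / 2)) ≤
      μ / 2 * (((bl T H (nb T Y) (Q / 2 + k)).ncard : ℝ) / 3) :=
    mul_le_mul_of_nonneg_left (by linarith) (by positivity)
  have h12 : (((Q / 2 + k : ℕ) : ℝ)) = ((Q / 2 : ℕ) : ℝ) + (k : ℝ) := Nat.cast_add _ _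
  rw [h12]
  linarith

/-- Admissible triples of a region give triples of every larger region. -/
theorem reattC [Finite D] {T : Tri D} {Y E Y' E' H Θ t : Set D} (hR : Rg T Y E) (hR' : Rg T Y' E') (hY : Y ⊆ Y')
    {N τ : ℕ} (htc : t.ncard ≤ τ) {μ : ℝ} {M Q A : ℕ} (hp : Pm μ (N + τ) M Q A) (hA : Adm T N t Y E H Θ) :
    PL T μ N t Y' E' (val μ T H Θ + 8 * ((N + τ : ℕ) : ℝ) * (Q + 2)) := by
  have h1 : N ≤ rk T (ins T (Y' ∪ H)) := by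
    refine hA.rank.trans (rk_mono ?_)
    exact (ee_sub hR hA.adc).trans (ins_mono T (Set.union_subset_union_left H hY))
  have h2 : ∀ x ∈ t, x ∈ Y' ∨ x ∈ H := by
    intro x hx
    rcases hA.tg x hx with h | h
    · exact Or.inl (hY h)
    · exact Or.inr h
  refine rt_pl (reatt hR' hA.adc.fs (dc_bigger hR hR' hY hA.adc.fs hA.att) h1 h2 htc hp) ?_
  have h3 : (0 : ℝ) ≤ (Θ.ncard : ℝ) := Nat.cast_nonneg _
  unfold val
  linarith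

end SYS.PG
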