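import Pool.Agent.SYS.PG.Bs
import Pool.Agent.SYS.PG.Rt
import Pool.Agent.SYS.PG.Dr
import Pool.Agent.SYS.PG.Cp

/-!
# SYSS-PG-Pr: progress (2.2)

PLAN.  `C = cp T H (T.a f)` (a connected face set, `C ⊆ H ⊆ Yᶜ`), `balls` with `Hd = Yᶜ`.
* Case 1, `C ⊆ Inn ⊆ E' ⊆ Y'`: if `C` contains a target `x`, then `x ∉ Y` (`Adc.dis`), `x ∈ Y'`.  Otherwise `comp` with `K = C`.
* Case 2: `reatt` at `(Y', E')` with `H' = H \ B`: `Y' ∪ H' = Y' ∪ H` because `B ⊆ Inn ⊆ E' ⊆ Y'`, so `dc_bigger`, rank by `ee_sub` and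
  `ins_mono`; targets.  `Ph (H \ B) = Ph H - per B - μ |B| + 2 cut (B, H \ B)` and `cut (B, H \ B) = cut (B, C \ B)` (`cp_a`)
  `≤ μ / 4 |B|`, so `Ph (H \ B) ≤ Ph H - per B - μ / 2 |B| ≤ Ph H - M` (`Pm.ma` if `3 A < B.ncard`).
* Case 3: `reattF` at `(Y', E')` with `H`: `bl T C B (Q - 1) ⊆ H ∩ Y'`, `grow` for `(C, B)` from `Q / 2` with `k = Q - 1 - Q / 2` steps,
  `bl T C B (Q / 2)` is nonempty, so it has at least `3` darts.
`Ph H ≤ val`.
-/

namespace SYS.PG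

open Classical SST SYS.XP SYS.CO

variable {D : Type}

private theorem pl_le {T : Tri D} {μ : ℝ} {N : ℕ} {t Y E : Set D} {v v' : ℝ} (h : PL T μ N t Y E v) (hv : v ≤ v') :
    PL T μ N t Y E v' := by
  obtain ⟨H, Θ, h1, h2⟩ := h
  exact ⟨H, Θ, h1, h2.trans hv⟩

theorem progress [Finite D] {T : Tri D} {Y E Y' E' H Θ t : Set D} (hR : Rg T Y E) (hR' : Rg T Y' E') (hY : Y ⊆ Y')
    (hE : E ⊆ E') (hV : VV T E' ≤ VV T E) {N τ : ℕ} (htc : t.ncard ≤ τ) {μ : ℝ} {M Q A : ℕ}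
    (hp : Pm μ (N + τ) M Q A) (hM : Mn T μ N t Y E H Θ) {f : D} (hf : T.a f ∈ H)
    (hI : Inn T Yᶜ (T.a f) M Q A ⊆ E') :
    (∃ x ∈ t, x ∉ Y ∧ x ∈ Y') ∨ PL T μ N t Y' E' (val μ T H Θ - M + 8 * ((N + τ : ℕ) : ℝ) * (Q + 2)) := by
  have hA := hM.adm
  have hμ := hp.mu
  have hm3 := hp.m3
  have hq2 := hp.q2
  obtain ⟨C, hCdef⟩ : ∃ C, C = cp T H (T.a f) := ⟨_, rfl⟩
  have hCfs : Fs T C := by rw [hCdef]; exact cp_fs hA.adc.fs _
  have hCdc : DC T C := by rw [hCdef]; exact cp_dc hA.adc.fs _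
  have hCf : T.a f ∈ C := by rw [hCdef]; exact cp_self hf
  have hCH : C ⊆ H := by rw [hCdef]; exact cp_sub T H _
  have hCa : ∀ d ∈ C, T.a d ∈ H → T.a d ∈ C := by
    intro d hd h
    rw [hCdef] at hd ⊢
    exact cp_a hd h
  have hCY : C ⊆ Yᶜ := fun d hd => hA.adc.dis d (hCH hd)
  have hA1 : 1 ≤ A := by
    by_contra h1
    have h2 : A = 0 := by omega
    have h3 := hp.ma
    rw [h2, Nat.cast_zero, mul_zero] at h3
    have h4 : (3 : ℝ) ≤ (M : ℝ) := by exact_mod_cast hm3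
    linarith
  have hdc : DC T (Y' ∪ H) := dc_bigger hR hR' hY hA.adc.fs hA.att
  have hrk : N ≤ rk T (ins T (Y' ∪ H)) :=
    hA.rank.trans (rk_mono ((ee_sub hR hA.adc).trans (ins_mono T (Set.union_subset_union_left H hY))))
  have hval : Ph μ T H ≤ val μ T H Θ := by
    unfold val
    have h1 : (0 : ℝ) ≤ (Θ.ncard : ℝ) := Nat.cast_nonneg _
    linarith
  have hIY : Inn T Yᶜ (T.a f) M Q A ⊆ Y' := fun d hd => hR'.ey d (hI hd)
  obtain ⟨B, hBf, hBd, hB0, hBC, hBI, hB⟩ := balls (μ := μ) (M := M) (Q := Q) (A := A) hCfs hCdc hCf hCY hm3 hA1 hq2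
  rcases hB with hB | ⟨hB1, hB2⟩ | ⟨hB1, hB2, hB3⟩
  · left
    rw [hB] at hBI
    by_contra hcon
    refine comp hμ hR hM hR'.ea hE hV hCfs hCH hCa (hBI.trans hI) (fun x hx hxC => ?_) ⟨_, hCf⟩
    exact hcon ⟨x, hx, hA.adc.dis x (hCH hxC), hIY (hBI hxC)⟩
  · right
    have hYH : Y' ∪ (H \ B) = Y' ∪ H := by
      ext d
      constructor
      · rintro (h | h)
        · exact Or.inl h
        · exact Or.inr h.1
      · rintro (h | h)
        · exact Or.inl h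
        · by_cases h1 : d ∈ B
          · exact Or.inl (hIY (hBI h1))
          · exact Or.inr ⟨h, h1⟩
    have hfs : Fs T (H \ B) := fun d => and_congr (hA.adc.fs d) (not_congr (hBf d))
    have h1 := reatt (t := t) (μ := μ) hR' hfs (by rw [hYH]; exact hdc) (N := N) (τ := τ) (by rw [hYH]; exact hrk) ?_ htc hp
    · refine pl_le h1 ?_
      have hcut : cut T B (H \ B) = cut T B (C \ B) := by
        unfold cut
        congr 1
        ext d
        constructor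
        · rintro ⟨h2, h3, h4⟩
          exact ⟨h2, hCa d (hBC h2) h3, h4⟩
        · rintro ⟨h2, h3, h4⟩
          exact ⟨h2, hCH h3, h4⟩
      rw [Ph_diff T (hBC.trans hCH), hcut]
      have hper : (0 : ℝ) ≤ ((bdy T B).ncard : ℝ) := Nat.cast_nonneg _
      rcases hB1 with h2 | h2
      · have h3 : (M : ℝ) < ((bdy T B).ncard : ℝ) := by exact_mod_cast h2
        have h4 : 0 ≤ μ * ((B.ncard : ℝ) / 3) := by positivity
        linarith
      · have h3 : 3 * (A : ℝ) < (B.ncard : ℝ) := by exact_mod_cast h2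
        have h4 := hp.ma
        have h5 : μ * (A : ℝ) ≤ μ * ((B.ncard : ℝ) / 3) := mul_le_mul_of_nonneg_left (by linarith) hμ.le
        linarith
    · intro x hx
      rcases hA.tg x hx with h2 | h2
      · exact Or.inl (hY h2)
      · by_cases h3 : x ∈ B
        · exact Or.inl (hIY (hBI h3))
        · exact Or.inr ⟨h2, h3⟩
  · right
    have h1 := reattF (t := t) (μ := μ) hR' hA.adc.fs hdc (N := N) (τ := τ) hrk ?_ htc hp ?_
    · refine pl_le h1 ?_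
      linarith
    · intro x hx
      rcases hA.tg x hx with h2 | h2
      · exact Or.inl (hY h2)
      · exact Or.inr h2
    · have h2 := grow hμ T C B (Q / 2) (Q - 1 - Q / 2) fun s h3 h4 => hB2 s h3 (by omega)
      have h3 : Q / 2 + (Q - 1 - Q / 2) = Q - 1 := by omega
      rw [h3] at h2
      have h4 : (bl T C B (Q - 1)).ncard ≤ (H ∩ Y').ncard :=
        Set.ncard_le_ncard (fun d hd => ⟨hCH (bl_sub T C B _ hd), hIY (hB3 hd)⟩) (Set.toFinite _)
      have h5 : 3 ≤ (bl T C B (Q / 2)).ncard :=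
        fs_card_pos T (bl_fs hCfs hBf _) ⟨T.a f, bl_mono T C B (Nat.zero_le _) ⟨hCf, hB0⟩⟩
      have h6 : (3 : ℝ) ≤ ((bl T C B (Q / 2)).ncard : ℝ) := by exact_mod_cast h5
      have h7 : ((bl T C B (Q - 1)).ncard : ℝ) ≤ ((H ∩ Y').ncard : ℝ) := by exact_mod_cast h4
      have h8 : (1 + μ / 12) ^ (Q - 1 - Q / 2) * 3 ≤ (1 + μ / 12) ^ (Q - 1 - Q / 2) * ((bl T C B (Q / 2)).ncard : ℝ) :=
        mul_le_mul_of_nonneg_left h6 (by positivity)
      linarith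

end SYS.PG
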