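import Pool.Agent.SYS.PG.Gx
import Pool.Agent.SYS.PG.Cu
import Pool.Agent.SYS.CO.Rse

/-!
# SYSS-PG-Re: reattachment at a small cut (2.1)

At most `N` edges raise the rank to `N`; together with the targets they are attached to `Y` by the
sets `K x ∪ S x` of `gxs`.
-/

namespace SYS.PG

open Classical SST SYS.XP SYS.CO

variable {D : Type}

private theorem re_arith {pH pb b3 c v a q : ℝ} {N τ s k : ℕ} {μ : ℝ}
    (h1 : v ≤ pH - pb - μ * b3 + 2 * c + k * (4 * (s + 1)) + q)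
    (h2 : c ≤ μ / 4 * b3) (h3 : k ≤ 2 * N + τ) (h4 : q ≤ 2 * N) (ha : a = pH - pb - μ / 2 * b3 +
      8 * ((N + τ : ℕ) : ℝ) * (s + 2)) : v ≤ a := by
  have h5 : (k : ℝ) ≤ 2 * N + τ := by exact_mod_cast h3
  have h6 : (k : ℝ) * (4 * (s + 1)) ≤ (2 * N + τ) * (4 * (s + 1)) :=
    mul_le_mul_of_nonneg_right h5 (by positivity)
  have h7 : (0 : ℝ) ≤ N := Nat.cast_nonneg N
  have h8 : (0 : ℝ) ≤ τ := Nat.cast_nonneg τ
  have h9 : (0 : ℝ) ≤ s := Nat.cast_nonneg s
  have h10 := mul_nonneg h8 h9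
  rw [ha]
  push_cast
  nlinarith

theorem reattS [Finite D] {T : Tri D} {Y E H t : Set D} (hR : Rg T Y E) (hH : Fs T H) (hdc : DC T (Y ∪ H))
    {N τ : ℕ} (hN : N ≤ rk T (ins T (Y ∪ H))) (ht : ∀ x ∈ t, x ∈ Y ∨ x ∈ H) (htc : t.ncard ≤ τ) {μ : ℝ} (hμ : 0 < μ)
    (hμ1 : μ ≤ 1) {s : ℕ} (hs : Sc μ T H (nb T Y) s) :
    PL T μ N t Y E (Ph μ T H - (bdy T (bl T H (nb T Y) s)).ncard - μ / 2 * ((bl T H (nb T Y) s).ncard / 3) +
      8 * ((N + τ : ℕ) : ℝ) * (s + 2)) := by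
  obtain ⟨K, S, hKS, hG⟩ := gxs hR.fs hR.ne hH hdc s
  obtain ⟨b, hb⟩ := hR.ne
  have hYH : ∀ d, T.f d ∈ Y ∪ H ↔ d ∈ Y ∪ H := by
    intro d
    rw [Set.mem_union, Set.mem_union, hR.fs d, hH d]
  obtain ⟨P, hPd⟩ : ∃ P : D → Set D, P = fun x => if x ∈ Y ∪ H then ed T Y (K x ∪ S x) else ∅ := ⟨_, rfl⟩
  have hPin : ∀ x ∈ Y ∪ H, P x = ed T Y (K x ∪ S x) := by
    intro x hx
    rw [hPd]
    exact if_pos hx
  obtain ⟨J, hJ1, hJ2, hJ3⟩ := raise (T := T) (E0 := E) (E := ins T (Y ∪ H)) (P := P) (b := b) (N := N) hR.ea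
    (by
      intro d e
      rw [hPd]
      by_cases h : d ∈ Y ∪ H
      · simp only [if_pos h]
        exact ed_a T Y _ e
      · simp only [if_neg h]
        exact Iff.rfl)
    (by
      intro d
      rw [hPd]
      simp only
      rw [(hKS d).1, (hKS d).2]
      exact if_congr (hYH d) rfl rfl)
    (by
      intro d hd
      have h1 : d ∈ Y ∪ H := hd.1
      rw [hPin d h1]
      exact att_lk hR (hG d h1).att ((hG d h1).mem) hb)
    (fun d hd => hR.con d (hR.ey d hd) b hb) hN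
  have htf : t.Finite := Set.toFinite t
  obtain ⟨F, hF⟩ : ∃ F : Finset D, F = (J ∪ J.image T.a) ∪ htf.toFinset := ⟨_, rfl⟩
  have hFJ : ∀ e ∈ J, e ∈ F := by
    intro e he
    rw [hF]
    exact Finset.mem_union_left _ (Finset.mem_union_left _ he)
  have hFa : ∀ e ∈ J, T.a e ∈ F := by
    intro e he
    rw [hF]
    exact Finset.mem_union_left _ (Finset.mem_union_right _ (Finset.mem_image_of_mem _ he))
  have hFt : ∀ e ∈ t, e ∈ F := by
    intro e he
    rw [hF]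
    exact Finset.mem_union_right _ (htf.mem_toFinset.2 he)
  have hJY : ∀ e ∈ J, e ∈ Y ∪ H ∧ T.a e ∈ Y ∪ H ∧ e ∉ E := by
    intro e he
    have h1 := hJ1 (Finset.mem_coe.2 he)
    exact ⟨h1.1.1, h1.1.2, h1.2⟩
  have hFY : ∀ x ∈ F, x ∈ Y ∪ H := by
    intro x hx
    rw [hF, Finset.mem_union, Finset.mem_union, Finset.mem_image] at hx
    rcases hx with (hx | ⟨e, he, rfl⟩) | hx
    · exact (hJY x hx).1
    · exact (hJY e he).2.1
    · exact ht x (htf.mem_toFinset.1 hx)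
  have hFc : F.card ≤ 2 * N + τ := by
    have h1 : ((J ∪ J.image T.a) ∪ htf.toFinset).card ≤ (J ∪ J.image T.a).card + htf.toFinset.card :=
      Finset.card_union_le _ _
    have h2 : (J ∪ J.image T.a).card ≤ J.card + (J.image T.a).card := Finset.card_union_le _ _
    have h3 : (J.image T.a).card ≤ J.card := Finset.card_image_le
    have h4 : t.ncard = htf.toFinset.card := Set.ncard_eq_toFinset_card t htf
    rw [hF]
    omega
  obtain ⟨H3, hH3⟩ : ∃ H3 : Set D, H3 = ⋃ x ∈ (F : Set D), (K x ∪ S x) := ⟨_, rfl⟩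
  have hGH : ∀ x ∈ F, K x ∪ S x ⊆ H3 := by
    intro x hx
    rw [hH3]
    exact Set.subset_biUnion_of_mem (u := fun x => K x ∪ S x) (Finset.mem_coe.2 hx)
  have hmem : ∀ x ∈ F, x ∈ Y ∨ x ∈ H3 := by
    intro x hx
    rcases (hG x (hFY x hx)).mem with h1 | h1
    · exact Or.inl h1
    · exact Or.inr (hGH x hx h1)
  have hH3m : ∀ d, d ∈ H3 ↔ ∃ x ∈ F, d ∈ K x ∪ S x := by
    intro d
    rw [hH3]
    simp only [Set.mem_iUnion, Finset.mem_coe, exists_prop]
  obtain ⟨Θ, hΘ⟩ : ∃ Θ : Set D, Θ = {d | (d ∈ J ∨ T.a d ∈ J) ∧ d ∈ Y ∧ T.a d ∈ Y} := ⟨_, rfl⟩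
  have hΘm : ∀ d, d ∈ Θ ↔ (d ∈ J ∨ T.a d ∈ J) ∧ d ∈ Y ∧ T.a d ∈ Y := by
    intro d
    rw [hΘ]
    exact Iff.rfl
  have hed : ∀ e, (e ∈ Y ∨ e ∈ H3) → (T.a e ∈ Y ∨ T.a e ∈ H3) → e ∉ Y ∨ T.a e ∉ Y → e ∈ ed T Y H3 := by
    intro e h1 h2 h3
    rcases h3 with h3 | h3
    · rcases h1 with h1 | h1
      · exact absurd h1 h3
      · exact Or.inl ⟨h1, h2⟩
    · rcases h2 with h2 | h2
      · exact absurd h2 h3
      · rcases h1 with h1 | h1
        · exact Or.inr ⟨h2, h1⟩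
        · exact Or.inl ⟨h1, Or.inr h2⟩
  refine ⟨H3, Θ, ⟨⟨?_, ?_, ?_, ?_, ?_⟩, ?_, ?_, ?_⟩, ?_⟩
  · intro d
    rw [hH3m, hH3m]
    refine exists_congr fun x => and_congr_right fun hx => ?_
    have h1 := hG x (hFY x hx)
    rw [Set.mem_union, Set.mem_union, h1.fk d, h1.fs d]
  · intro d hd
    obtain ⟨x, hx, h1 | h1⟩ := (hH3m d).1 hd
    · exact (hG x (hFY x hx)).ky d h1
    · exact (hG x (hFY x hx)).sy d h1
  · intro d
    rw [hΘm, hΘm, T.aa]
    constructor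
    · rintro ⟨h1, h2, h3⟩
      exact ⟨h1.symm, h3, h2⟩
    · rintro ⟨h1, h2, h3⟩
      exact ⟨h1.symm, h3, h2⟩
  · intro d hd
    exact ((hΘm d).1 hd).2.1
  · intro d hd hdE
    rcases ((hΘm d).1 hd).1 with h1 | h1
    · exact (hJY d h1).2.2 hdE
    · exact (hJY _ h1).2.2 ((hR.ea d).2 hdE)
  · rw [hH3]
    exact att_iUnion _ _ fun x hx => (hG x (hFY x (Finset.mem_coe.1 hx))).att
  · refine hJ3.trans (rk_mono ?_)
    unfold EE
    rintro d (hd | hd)
    · exact Or.inl (Or.inl hd)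
    · simp only [Set.mem_iUnion, exists_prop] at hd
      obtain ⟨e, he, hd⟩ := hd
      rcases hd with (hd | hd) | hd
      · rw [hPin e (hJY e he).1] at hd
        exact Or.inl (Or.inr (ed_mono T Y (hGH e (hFJ e he)) hd))
      · rw [hPin _ (hJY e he).2.1] at hd
        exact Or.inl (Or.inr (ed_mono T Y (hGH _ (hFa e he)) hd))
      · have h1 := hmem e (hFJ e he)
        have h2 := hmem _ (hFa e he)
        by_cases h3 : e ∈ Y ∧ T.a e ∈ Y
        · right
          rw [hΘm]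
          rcases hd with hd | hd
          · rw [hd]
            exact ⟨Or.inl he, h3⟩
          · have hd' : d = T.a e := hd
            rw [hd', T.aa]
            exact ⟨Or.inr he, h3.2, h3.1⟩
        · have h4 : e ∉ Y ∨ T.a e ∉ Y := not_and_or.1 h3
          have h5 := hed e h1 h2 h4
          refine Or.inl (Or.inr ?_)
          rcases hd with hd | hd
          · rw [hd]
            exact h5
          · have hd' : d = T.a e := hd
            rw [hd']
            exact (ed_a T Y H3 e).2 h5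
  · intro x hx
    exact hmem x (hFt x hx)
  · -- the value
    have hsplit : H3 = (⋃ x ∈ F, K x) ∪ ⋃ x ∈ F, S x := by
      ext d
      rw [hH3m]
      simp only [Set.mem_union, Set.mem_iUnion, exists_prop]
      constructor
      · rintro ⟨x, hx, h1 | h1⟩
        · exact Or.inl ⟨x, hx, h1⟩
        · exact Or.inr ⟨x, hx, h1⟩
      · rintro (⟨x, hx, h1⟩ | ⟨x, hx, h1⟩)
        · exact ⟨x, hx, Or.inl h1⟩
        · exact ⟨x, hx, Or.inr h1⟩
    have hbs : bl T H (nb T Y) s ⊆ H := bl_sub T H _ s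
    have v1 : Ph μ T (⋃ x ∈ F, S x) ≤ F.card * (4 * ((s : ℝ) + 1)) := by
      refine Ph_bUnion hμ.le T F S _ fun x hx => ?_
      have h1 := (hG x (hFY x hx)).card
      have h2 : ((S x).ncard : ℝ) ≤ 3 * (s + 1) := by exact_mod_cast h1
      have h3 := Ph_le_card hμ.le hμ1 T (S x)
      linarith
    have v2 : Ph μ T (⋃ x ∈ F, K x) ≤ Ph μ T (H \ bl T H (nb T Y) s) := by
      refine Ph_part hμ.le T ?_ ?_
      · refine Set.iUnion₂_subset fun x hx => (hG x (hFY x hx)).kh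
      · intro d hd hd'
        simp only [Set.mem_iUnion, exists_prop] at hd ⊢
        obtain ⟨x, hx, h1⟩ := hd
        exact ⟨x, hx, (hG x (hFY x hx)).ka d h1 hd'⟩
    have v3 := Ph_diff (μ := μ) T hbs
    have v4 := Ph_union hμ.le T (⋃ x ∈ F, K x) (⋃ x ∈ F, S x)
    rw [← hsplit] at v4
    have v5 : Θ.ncard ≤ 2 * N := by
      have h1 : Θ ⊆ ((J ∪ J.image T.a : Finset D) : Set D) := by
        intro d hd
        rw [Finset.mem_coe, Finset.mem_union]
        rcases ((hΘm d).1 hd).1 with h1 | h1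
        · exact Or.inl h1
        · right
          rw [Finset.mem_image]
          exact ⟨T.a d, h1, T.aa d⟩
      have h2 := Set.ncard_le_ncard h1 (Set.toFinite _)
      rw [Set.ncard_coe_finset] at h2
      have h3 : (J ∪ J.image T.a).card ≤ J.card + (J.image T.a).card := Finset.card_union_le _ _
      have h4 : (J.image T.a).card ≤ J.card := Finset.card_image_le
      omega
    have v6 : (Θ.ncard : ℝ) ≤ 2 * N := by exact_mod_cast v5
    unfold val
    refine re_arith (pH := Ph μ T H) (pb := (bdy T (bl T H (nb T Y) s)).ncard)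
      (b3 := ((bl T H (nb T Y) s).ncard : ℝ) / 3)
      (c := (cut T (bl T H (nb T Y) s) (H \ bl T H (nb T Y) s) : ℝ)) (q := (Θ.ncard : ℝ)) (N := N) (τ := τ)
      (s := s) (k := F.card) (μ := μ) ?_ hs hFc v6 rfl
    linarith

end SYS.PG
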