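import Pool.Agent.SYS.PG.At
import Pool.Agent.SYS.PG.Bl

/-!
# SYSS-PG-Sh: short attached sets

A face of the ball `bl T H (nb T Y) s` is joined to `Y` by a path of at most `s + 1` faces of the ball.
-/

namespace SYS.PG

open Classical SST SYS.XP SYS.CO

variable {D : Type}

/-- the face of `x` -/
private def shF (T : Tri D) (x : D) : Set D := {x, T.f x, T.f (T.f x)}

private theorem shF_fs (T : Tri D) (x : D) : Fs T (shF T x) := by
  intro d
  unfold shF
  simp only [Set.mem_insert_iff, Set.mem_singleton_iff, EmbeddingLike.apply_eq_iff_eq]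
  have h1 : T.f d = x ↔ d = T.f (T.f x) := by
    constructor
    · rintro rfl
      exact (T.fff d).symm
    · rintro rfl
      exact T.fff x
  rw [h1]
  tauto

private theorem shF_sub {T : Tri D} {A : Set D} (hA : Fs T A) {x : D} (hx : x ∈ A) : shF T x ⊆ A := by
  rintro d (rfl | rfl | rfl)
  · exact hx
  · exact (hA _).2 hx
  · exact (hA _).2 ((hA _).2 hx)

private theorem shF_self (T : Tri D) (x : D) : x ∈ shF T x := Or.inl rfl

private theorem shF_card (T : Tri D) (x : D) : (shF T x).ncard ≤ 3 := by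
  unfold shF
  have h1 := Set.ncard_insert_le x {T.f x, T.f (T.f x)}
  have h2 := Set.ncard_insert_le (T.f x) {T.f (T.f x)}
  rw [Set.ncard_singleton] at h2
  omega

private theorem shF_x {T : Tri D} {x d : D} (E : Set D) (hd : d ∈ shF T x) : Lk T E x d := by
  rcases hd with rfl | rfl | rfl
  · exact lk_refl T E _
  · exact lk_f T E _
  · exact lk_trans (lk_f T E _) (lk_f T E _)

private theorem shF_lk {T : Tri D} {x d e : D} (E : Set D) (hd : d ∈ shF T x) (he : e ∈ shF T x) :
    Lk T E d e := lk_trans (lk_symm (shF_x E hd)) (shF_x E he)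

private theorem shF_att {T : Tri D} {Y : Set D} {x d : D} (hd : d ∈ shF T x) (h : T.a d ∈ Y) :
    Att T Y (shF T x) := by
  intro e he
  exact ⟨T.a d, h, lk_trans (shF_lk _ he hd) (lk_a T (Or.inl ⟨hd, Or.inl h⟩))⟩

private theorem shF_att' {T : Tri D} {Y S : Set D} {x d : D} (hd : d ∈ shF T x) (h : T.a d ∈ S)
    (hS : Att T Y S) : Att T Y (shF T x ∪ S) := by
  obtain ⟨b, hb, h1⟩ := hS _ h
  rintro e (he | he)
  · refine ⟨b, hb, lk_trans (lk_trans (shF_lk _ he hd) (lk_a T ?_))
      (lk_mono (ed_mono T Y Set.subset_union_right) h1)⟩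
    exact Or.inl ⟨Or.inl hd, Or.inr (Or.inr h)⟩
  · obtain ⟨c, hc, h2⟩ := hS e he
    exact ⟨c, hc, lk_mono (ed_mono T Y Set.subset_union_right) h2⟩

private theorem shF_nb {T : Tri D} {B : Set D} {x : D} (hx : x ∈ nb T B) (hB : x ∉ B) :
    ∃ d ∈ shF T x, T.a d ∈ B := by
  rcases hx with h | h | h | h
  · exact absurd h hB
  · exact ⟨x, Or.inl rfl, h⟩
  · exact ⟨T.f x, Or.inr (Or.inl rfl), h⟩
  · exact ⟨T.f (T.f x), Or.inr (Or.inr rfl), h⟩

theorem short [Finite D] {T : Tri D} {Y H : Set D} (hY : Fs T Y) (hH : Fs T H) (s : ℕ) {x : D}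
    (hx : x ∈ bl T H (nb T Y) s) (hxY : x ∉ Y) :
    ∃ S : Set D, Fs T S ∧ S ⊆ bl T H (nb T Y) s ∧ (∀ d ∈ S, d ∉ Y) ∧ x ∈ S ∧ S.ncard ≤ 3 * (s + 1) ∧ Att T Y S := by
  have hfs : ∀ s, Fs T (bl T H (nb T Y) s) := fun s => bl_fs hH (nb_fs hY) s
  have hYc : Fs T Yᶜ := fun d => not_congr (hY d)
  have hcard := shF_card T
  induction s generalizing x with
  | zero =>
    obtain ⟨d, hd, hda⟩ := shF_nb hx.2 hxY
    refine ⟨shF T x, shF_fs T x, shF_sub (hfs 0) hx, fun e he => shF_sub hYc hxY he, shF_self T x, ?_,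
      shF_att hd hda⟩
    have := hcard x
    omega
  | succ s ih =>
    by_cases hxs : x ∈ bl T H (nb T Y) s
    · obtain ⟨S, h1, h2, h3, h4, h5, h6⟩ := ih hxs hxY
      exact ⟨S, h1, h2.trans (bl_mono T H _ (Nat.le_succ s)), h3, h4, by omega, h6⟩
    · obtain ⟨d, hd, hda⟩ := shF_nb hx.2 hxs
      by_cases hdY : T.a d ∈ Y
      · refine ⟨shF T x, shF_fs T x, shF_sub (hfs (s + 1)) hx, fun e he => shF_sub hYc hxY he,
          shF_self T x, ?_, shF_att hd hdY⟩
        have := hcard x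
        omega
      · obtain ⟨S, h1, h2, h3, h4, h5, h6⟩ := ih hda hdY
        refine ⟨shF T x ∪ S, fun e => or_congr (shF_fs T x e) (h1 e), ?_, ?_, Or.inl (shF_self T x), ?_,
          shF_att' hd h4 h6⟩
        · exact Set.union_subset (shF_sub (hfs (s + 1)) hx) (h2.trans (bl_mono T H _ (Nat.le_succ s)))
        · rintro e (he | he)
          · exact shF_sub hYc hxY he
          · exact h3 e he
        · have h7 := Set.ncard_union_le (shF T x) S
          have h8 := hcard x
          omega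

end SYS.PG
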